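import Pool.Agent.Helper66.JC.GlueD
import Pool.Agent.Helper66.MB.Lim

/-!
# Joint class theorem (MP_a499ba_nt): the joint limit set
-/

set_option autoImplicit false

namespace Pool.Agent.Helper66.JC

open Finset Filter Pool.Agent.Helper92.GB Pool.Agent.Helper66.MB

/-- The pair of quotients. -/
noncomputable def VV (φ : ℝ → ℝ) (f : ℕ → ℤ) (x : ℝ) : ℝ × ℝ :=
  (Mf f ⌊x⌋₊ / (Real.sqrt x * φ x), GL.Lf f ⌊x⌋₊ / (Real.sqrt x * φ x))

theorem polar (a c : ℝ) : ∃ r u v : ℝ, 0 ≤ r ∧ u ^ 2 + v ^ 2 = 1 ∧ a = r * u ∧ c = r * v := by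
  by_cases h : a ^ 2 + c ^ 2 = 0
  · refine ⟨0, 1, 0, le_refl _, by norm_num, ?_, ?_⟩ <;> nlinarith [sq_nonneg a, sq_nonneg c]
  · have h0 : 0 < a ^ 2 + c ^ 2 := lt_of_le_of_ne (by positivity) (Ne.symm h)
    have hr : 0 < Real.sqrt (a ^ 2 + c ^ 2) := Real.sqrt_pos.2 h0
    refine ⟨Real.sqrt (a ^ 2 + c ^ 2), a / Real.sqrt (a ^ 2 + c ^ 2), c / Real.sqrt (a ^ 2 + c ^ 2), hr.le, ?_, ?_, ?_⟩
    · rw [div_pow, div_pow, Real.sq_sqrt h0.le, ← add_div, div_self h0.ne']
    · field_simp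
    · field_simp

theorem seg_near (r y d : ℝ) (hd : 0 ≤ d) (h1 : -d ≤ y) (h2 : y ≤ r + d) :
    ∃ θ : ℝ, 0 ≤ θ ∧ θ ≤ 1 ∧ |y - θ * r| ≤ d := by
  rcases le_or_gt y 0 with h | h
  · refine ⟨0, le_refl _, zero_le_one, ?_⟩
    rw [zero_mul, sub_zero, abs_of_nonpos h]
    linarith
  · rcases le_or_gt r y with h' | h'
    · refine ⟨1, zero_le_one, le_refl _, ?_⟩
      rw [one_mul, abs_of_nonneg (by linarith)]
      linarith
    · have hr : 0 < r := h.trans h'
      refine ⟨y / r, by positivity, (div_le_one hr).2 h'.le, ?_⟩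
      rw [div_mul_cancel₀ _ hr.ne', sub_self, abs_zero]
      exact hd

theorem coord1 {u v M L D : ℝ} (huv : u ^ 2 + v ^ 2 = 1) :
    M / D = u * ((u * M + v * L) / D) - v * ((-v * M + u * L) / D) := by
  have h : M = u * (u * M + v * L) - v * (-v * M + u * L) := by linear_combination (-M) * huv
  calc M / D = (u * (u * M + v * L) - v * (-v * M + u * L)) / D := by rw [← h]
    _ = _ := by ring

theorem coord2 {u v M L D : ℝ} (huv : u ^ 2 + v ^ 2 = 1) :
    L / D = v * ((u * M + v * L) / D) + u * ((-v * M + u * L) / D) := by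
  have h : L = v * (u * M + v * L) + u * (-v * M + u * L) := by linear_combination (-L) * huv
  calc L / D = (v * (u * M + v * L) + u * (-v * M + u * L)) / D := by rw [← h]
    _ = _ := by ring

/-- Distance in terms of the two components. -/
theorem dist_le {u v p q ρ d e : ℝ} (huv : u ^ 2 + v ^ 2 = 1) (h1 : |p - ρ| ≤ d) (h2 : |q| ≤ e) :
    |u * p - v * q - ρ * u| ≤ d + e ∧ |v * p + u * q - ρ * v| ≤ d + e := by
  have hu : |u| ≤ 1 := by
    rw [abs_le]
    constructor <;> nlinarith [sq_nonneg v]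
  have hv : |v| ≤ 1 := by
    rw [abs_le]
    constructor <;> nlinarith [sq_nonneg u]
  have k1 : ∀ a : ℝ, |a| ≤ 1 → |a * (p - ρ)| ≤ d := by
    intro a ha
    rw [abs_mul]
    have := mul_le_mul ha h1 (abs_nonneg _) zero_le_one
    linarith
  have k2 : ∀ a : ℝ, |a| ≤ 1 → |a * q| ≤ e := by
    intro a ha
    rw [abs_mul]
    have := mul_le_mul ha h2 (abs_nonneg _) zero_le_one
    linarith
  constructor
  · have e1 : u * p - v * q - ρ * u = u * (p - ρ) - v * q := by ring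
    rw [e1]
    exact (abs_sub _ _).trans (add_le_add (k1 u hu) (k2 v hv))
  · have e1 : v * p + u * q - ρ * v = v * (p - ρ) + u * q := by ring
    rw [e1]
    exact (abs_add_le _ _).trans (add_le_add (k1 v hv) (k2 u hu))

theorem limD {φ : ℝ → ℝ} (hφ : Adm φ) (S : Set (ℝ × ℝ)) (hS : IsClosed S) (h0 : S.Nonempty)
    (hst : StarConvex ℝ (0 : ℝ × ℝ) S) (N₀ : ℕ) (s : ℕ → ℤ) (hs : ∀ n, s n = 1 ∨ s n = -1) :
    ∃ f : ℕ → ℤ, (∀ n, f n = 1 ∨ f n = -1) ∧ (∀ p : ℕ, p.Prime → p ≤ N₀ → f p = s p) ∧ PS f ∧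
      Tendsto (fun x : ℝ => Metric.infDist (VV φ f x) S) atTop (nhds 0) ∧
      ∀ z : ℝ × ℝ, MapClusterPt z atTop (VV φ f) ↔ z ∈ S := by
  classical
  have : Nonempty S := h0.to_subtype
  set t : ℕ → ℝ × ℝ := fun k => (TopologicalSpace.denseSeq S k : ℝ × ℝ) with ht
  have htS : ∀ k, t k ∈ S := fun k => (TopologicalSpace.denseSeq S k).2
  have hdense : ∀ z ∈ S, ∀ ε : ℝ, 0 < ε → ∃ k, dist (t k) z < ε := by
    intro z hz ε hε
    obtain ⟨k, hk⟩ := (TopologicalSpace.denseRange_denseSeq S).exists_dist_lt ⟨z, hz⟩ hε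
    refine ⟨k, ?_⟩
    rw [dist_comm]
    exact hk
  choose r u v hr huv h1 h2 using fun j : ℕ => polar (t j.unpair.1).1 (t j.unpair.1).2
  obtain ⟨f, X, f1, f2, f3, hX, hup, hpt⟩ := glueD hφ u v (fun j => r j + 1 / ((j : ℝ) + 1))
    (fun j => 1 / (2 * ((j : ℝ) + 1))) huv (fun j => by have := hr j; positivity) (fun j => by positivity) N₀ s hs
  obtain ⟨x₁, hx₁⟩ := hφ.mono
  obtain ⟨x₂, hx₂⟩ := (hφ.top.eventually_gt_atTop 0).exists_forall_of_atTop
  have hXle : ∀ j, j ≤ X j := fun j => hX.le_apply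
  -- the windows
  have hwin : ∀ j (x : ℝ), x₁ + 1 ≤ x → x₂ + 1 ≤ x → 1 ≤ x → X j ≤ ⌊x⌋₊ → ⌊x⌋₊ < X (j + 1) →
      ∃ w ∈ S, dist (VV φ f x) w ≤ 3 / ((j : ℝ) + 1) := by
    intro j x ha hb' hd hj1 hj2
    have hx0 : 0 < x := by linarith
    have hfl : x - 1 < (⌊x⌋₊ : ℝ) := Nat.sub_one_lt_floor x
    have hfl' : (⌊x⌋₊ : ℝ) ≤ x := Nat.floor_le hx0.le
    have hfl1 : 1 ≤ ⌊x⌋₊ := Nat.le_floor (by exact_mod_cast hd)
    obtain ⟨g1, g2, g3⟩ := hup j _ hj1 hj2
    set m := ⌊x⌋₊ with hm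
    have hφx : 0 < φ x := hx₂ x (by linarith)
    have hφm : 0 < φ (m : ℝ) := hx₂ _ (by linarith)
    have hsx : 0 < Real.sqrt x := Real.sqrt_pos.mpr hx0
    have hsm : 0 < Real.sqrt (m : ℝ) := Real.sqrt_pos.mpr (by exact_mod_cast hfl1)
    set D := Real.sqrt x * φ x with hD
    have hD0 : 0 < D := mul_pos hsx hφx
    set D' := Real.sqrt (m : ℝ) * φ (m : ℝ) with hD'
    have hD'0 : 0 < D' := mul_pos hsm hφm
    have hDD : D' ≤ D := mul_le_mul (Real.sqrt_le_sqrt hfl') (hx₁ _ _ (by linarith) hfl') hφm.le hsx.le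
    have hj0 : (0 : ℝ) < (j : ℝ) + 1 := by positivity
    have q1 : 0 < 1 / ((j : ℝ) + 1) := by positivity
    have q2 : 1 / (2 * ((j : ℝ) + 1)) = 1 / ((j : ℝ) + 1) / 2 := by field_simp
    rw [q2] at g1 g2 g3
    set η := 1 / ((j : ℝ) + 1) with hη
    -- the components divided by `D`
    have p1 : -(η / 2) ≤ comp (u j) (v j) f m / D := by
      rw [le_div_iff₀ hD0]
      have : η / 2 * D' ≤ η / 2 * D := mul_le_mul_of_nonneg_left hDD (by positivity)
      linarith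
    have p2 : comp (u j) (v j) f m / D ≤ r j + 3 / 2 * η := by
      rw [div_le_iff₀ hD0]
      have h3 : (r j + η + η / 2) * D' ≤ (r j + η + η / 2) * D :=
        mul_le_mul_of_nonneg_left hDD (by have := hr j; positivity)
      linarith
    have p3 : |comp (-v j) (u j) f m / D| ≤ η / 2 := by
      rw [abs_div, abs_of_pos hD0, div_le_iff₀ hD0]
      have : η / 2 * D' ≤ η / 2 * D := mul_le_mul_of_nonneg_left hDD (by positivity)
      linarith
    obtain ⟨θ, t1, t2, t3⟩ := seg_near (r j) (comp (u j) (v j) f m / D) (3 / 2 * η) (by positivity)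
      (by linarith) p2
    obtain ⟨d1, d2⟩ := dist_le (huv j) t3 p3
    refine ⟨θ • t j.unpair.1, ?_, ?_⟩
    · have := hst (htS j.unpair.1) (sub_nonneg.2 t2) t1 (by ring)
      simpa using this
    · have e1 : (VV φ f x).1 = u j * (comp (u j) (v j) f m / D) - v j * (comp (-v j) (u j) f m / D) :=
        coord1 (huv j)
      have e2 : (VV φ f x).2 = v j * (comp (u j) (v j) f m / D) + u j * (comp (-v j) (u j) f m / D) :=
        coord2 (huv j)
      rw [Prod.dist_eq, max_le_iff, Real.dist_eq, Real.dist_eq, e1, e2]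
      have e3 : (θ • t j.unpair.1).1 = θ * r j * u j := by
        rw [Prod.smul_fst, smul_eq_mul, h1 j]; ring
      have e4 : (θ • t j.unpair.1).2 = θ * r j * v j := by
        rw [Prod.smul_snd, smul_eq_mul, h2 j]; ring
      rw [e3, e4]
      have e5 : 3 / 2 * η + η / 2 ≤ 3 / ((j : ℝ) + 1) := by
        rw [hη]
        have : 3 / 2 * (1 / ((j : ℝ) + 1)) + 1 / ((j : ℝ) + 1) / 2 = 2 / ((j : ℝ) + 1) := by field_simp; norm_num
        rw [this]
        exact div_le_div_of_nonneg_right (by norm_num) hj0.le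
      exact ⟨d1.trans e5, d2.trans e5⟩
  -- the points
  have hpts : ∀ j : ℕ, x₂ ≤ X j → 1 ≤ X j → ∃ x : ℝ, (X j : ℝ) ≤ x ∧
      dist (VV φ f x) (t j.unpair.1) ≤ 3 / ((j : ℝ) + 1) := by
    intro j ha hb
    obtain ⟨m, hm1, hm2, hm3⟩ := hpt j
    obtain ⟨g1, g2, g3⟩ := hup j m hm1 hm2
    have hXm : ((X j : ℕ) : ℝ) ≤ m := by exact_mod_cast hm1
    have hφm : 0 < φ (m : ℝ) := hx₂ _ (by linarith)
    have hm0 : (0 : ℝ) < m := by
      have : 1 ≤ m := hb.trans hm1
      exact_mod_cast this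
    have hsm : 0 < Real.sqrt (m : ℝ) := Real.sqrt_pos.mpr hm0
    set D := Real.sqrt (m : ℝ) * φ (m : ℝ) with hD
    have hD0 : 0 < D := mul_pos hsm hφm
    have hj0 : (0 : ℝ) < (j : ℝ) + 1 := by positivity
    have q1 : 0 < 1 / ((j : ℝ) + 1) := by positivity
    have q2 : 1 / (2 * ((j : ℝ) + 1)) = 1 / ((j : ℝ) + 1) / 2 := by field_simp
    rw [q2] at g1 g2 g3 hm3
    set η := 1 / ((j : ℝ) + 1) with hη
    have p1 : |comp (u j) (v j) f m / D - r j| ≤ 3 / 2 * η := by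
      rw [abs_le]
      constructor
      · have : r j + η - η / 2 ≤ comp (u j) (v j) f m / D := by
          rw [le_div_iff₀ hD0]
          exact hm3
        linarith
      · have : comp (u j) (v j) f m / D ≤ r j + η + η / 2 := by
          rw [div_le_iff₀ hD0]
          exact g2
        linarith
    have p3 : |comp (-v j) (u j) f m / D| ≤ η / 2 := by
      rw [abs_div, abs_of_pos hD0, div_le_iff₀ hD0]
      exact g3
    obtain ⟨d1, d2⟩ := dist_le (huv j) p1 p3
    refine ⟨m, hXm, ?_⟩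
    have e1 : (VV φ f m).1 = u j * (comp (u j) (v j) f m / D) - v j * (comp (-v j) (u j) f m / D) := by
      unfold VV
      rw [Nat.floor_natCast]
      exact coord1 (huv j)
    have e2 : (VV φ f m).2 = v j * (comp (u j) (v j) f m / D) + u j * (comp (-v j) (u j) f m / D) := by
      unfold VV
      rw [Nat.floor_natCast]
      exact coord2 (huv j)
    rw [Prod.dist_eq, max_le_iff, Real.dist_eq, Real.dist_eq, e1, e2, h1 j, h2 j]
    have e5 : 3 / 2 * η + η / 2 ≤ 3 / ((j : ℝ) + 1) := by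
      rw [hη]
      have : 3 / 2 * (1 / ((j : ℝ) + 1)) + 1 / ((j : ℝ) + 1) / 2 = 2 / ((j : ℝ) + 1) := by field_simp; norm_num
      rw [this]
      exact div_le_div_of_nonneg_right (by norm_num) hj0.le
    exact ⟨d1.trans e5, d2.trans e5⟩
  have hsmall : ∀ ε : ℝ, 0 < ε → ∃ J : ℕ, ∀ j : ℕ, J ≤ j → 3 / ((j : ℝ) + 1) < ε := by
    intro ε hε
    obtain ⟨J, hJ⟩ := exists_nat_gt (3 / ε)
    refine ⟨J, fun j hj => ?_⟩
    rw [div_lt_iff₀ hε] at hJ
    rw [div_lt_iff₀ (by positivity)]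
    have h3 : (J : ℝ) ≤ j := by exact_mod_cast hj
    nlinarith
  have hT : Tendsto (fun x : ℝ => Metric.infDist (VV φ f x) S) atTop (nhds 0) := by
    rw [Metric.tendsto_atTop]
    intro ε hε
    obtain ⟨J, hJ⟩ := hsmall ε hε
    refine ⟨max (max (X J : ℝ) (x₁ + 1)) (max (x₂ + 1) 1), fun x hx => ?_⟩
    have a1 : (X J : ℝ) ≤ x := (le_max_left _ _).trans ((le_max_left _ _).trans hx)
    have a2 : x₁ + 1 ≤ x := (le_max_right _ _).trans ((le_max_left _ _).trans hx)
    have a3 : x₂ + 1 ≤ x := (le_max_left _ _).trans ((le_max_right _ _).trans hx)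
    have a4 : 1 ≤ x := (le_max_right _ _).trans ((le_max_right _ _).trans hx)
    obtain ⟨j, hj, hj1, hj2⟩ := exists_bracket_h48 hX J ⌊x⌋₊ (Nat.le_floor a1)
    obtain ⟨w, hw, hd⟩ := hwin j x a2 a3 a4 hj1 hj2
    rw [Real.dist_eq, sub_zero, abs_of_nonneg Metric.infDist_nonneg]
    exact (Metric.infDist_le_dist_of_mem hw).trans_lt (hd.trans_lt (hJ j hj))
  refine ⟨f, f1, f2, f3, hT, fun z => ⟨fun hz => ?_, fun hz => ?_⟩⟩
  · rw [hS.mem_iff_infDist_zero h0]
    by_contra hne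
    have hpos : 0 < Metric.infDist z S := lt_of_le_of_ne Metric.infDist_nonneg (Ne.symm hne)
    have hev : ∀ᶠ y in nhds z, Metric.infDist z S / 2 < Metric.infDist y S :=
      (Metric.continuous_infDist_pt S).continuousAt.eventually (lt_mem_nhds (half_lt_self hpos))
    have hfr := hz.frequently hev
    have hev2 : ∀ᶠ x : ℝ in atTop, Metric.infDist (VV φ f x) S < Metric.infDist z S / 2 :=
      hT.eventually (gt_mem_nhds (half_pos hpos))
    obtain ⟨x, hx1, hx2⟩ := (hfr.and_eventually hev2).exists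
    exact lt_asymm hx1 hx2
  · rw [Metric.nhds_basis_ball.mapClusterPt_iff_frequently]
    intro ε hε
    rw [frequently_atTop]
    intro A
    obtain ⟨k, hk⟩ := hdense z hz (ε / 2) (by positivity)
    obtain ⟨J, hJ⟩ := hsmall (ε / 2) (by positivity)
    obtain ⟨J', hJ'⟩ := exists_nat_ge (max A x₂)
    set j := Nat.pair k (max (max J J') 1) with hj
    have hjJ : max (max J J') 1 ≤ j := Nat.right_le_pair _ _
    have hjX : (j : ℝ) ≤ X j := by exact_mod_cast hXle j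
    have hJj : (J' : ℝ) ≤ j := by
      have : J' ≤ j := ((le_max_right _ _).trans (le_max_left _ _)).trans hjJ
      exact_mod_cast this
    have hk' : j.unpair.1 = k := by rw [hj, Nat.unpair_pair]
    obtain ⟨x, hx1, hx2⟩ := hpts j (by linarith [le_max_right A x₂])
      ((le_max_right _ _).trans (hjJ.trans (hXle j)))
    refine ⟨x, by linarith [le_max_left A x₂], ?_⟩
    rw [Metric.mem_ball]
    rw [hk'] at hx2
    have h3 := hJ j (((le_max_left _ _).trans (le_max_left _ _)).trans hjJ)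
    have h4 := dist_triangle (VV φ f x) (t k) z
    linarith

end Pool.Agent.Helper66.JC
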