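import Pool.Agent.Helper66.JC.Defs
import Pool.Agent.Helper66.GL.BaseL
import Pool.Agent.Helper66.MB.Base

/-!
# Joint class theorem (MP_a499ba_nt): the base function

One sign function with opposite signs at the two primes of every pair, square root cancellation in the twisted prime sums,
and both summatory functions of size `O(√x ρ(x))`. Proof: `GL.BaseL.baseL` and `MB.Base.base` with one and the same choice of
signs (`exists_signs_r r n` with `r` at least `2` and `n` at least the two thresholds).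
Author of the proof: helper11.
-/

set_option autoImplicit false

namespace Pool.Agent.Helper66.JC

open Finset Filter Pool.Agent.Helper92.GB Pool.Agent.Helper66.MB

private lemma kr_anti11 {r s : ℕ} (h : r ≤ s) (y : ℕ) : GL.kr s y ≤ GL.kr r y := by
  unfold GL.kr
  have h1 : (1 : ℝ) ≤ 1 + Real.log y := by
    have := Real.log_natCast_nonneg y
    linarith
  have h2 : (1 + Real.log (y : ℝ)) ^ r ≤ (1 + Real.log (y : ℝ)) ^ s := pow_le_pow_right₀ h1 h
  have h3 : 0 < (1 + Real.log (y : ℝ)) ^ r := by positivity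
  exact inv_anti₀ h3 h2

theorem base2 : ∃ ω : ℕ → ℤˣ, PS (sgn ω) ∧ ClG (Mf (sgn ω)) ∧ ClG (GL.Lf (sgn ω)) := by
  obtain ⟨C₁, r₁, hC₁, hpsi⟩ := GL.psi_bound 3
  obtain ⟨C₂, n₁, hC₂, hbr⟩ := GL.bracket 3
  obtain ⟨C₃, hC₃, hsum⟩ := GL.sumM
  obtain ⟨n₀, hn₀⟩ := exists_n₀
  set r := max r₁ 2 with hr
  set n := max n₁ n₀ with hn
  obtain ⟨ω, A, k₁, hk₁, h⟩ := GL.exists_signs_r r n
  obtain ⟨C, hC, hst⟩ := GL.star_bound_r r n k₁ hk₁ ω fun k hk => (h k hk).2
  have hst1 : ∀ s : ℕ, s ≤ r → ∀ x : ℕ, 1 ≤ x → |Sm x (star ω (Ico n x))| ≤ C * Real.sqrt x * GL.kr s x := by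
    intro s hs x hx
    refine (hst x hx).trans ?_
    exact mul_le_mul_of_nonneg_left (kr_anti11 hs x) (by positivity)
  refine ⟨ω, PS_of_HH A k₁ ω fun k hk => (h k hk).1, ?_, ?_⟩
  · obtain ⟨C', hC'⟩ := full_bound n (fun i hi => hn₀ i ((le_max_right _ _).trans hi)) ω C (by linarith)
      (fun x hx => hst1 2 (le_max_right _ _) x hx)
    refine ⟨C', fun x hx => ?_⟩
    rw [Mf_full ω x x le_rfl]
    exact hC' x x hx le_rfl
  · refine GL.add_primes (sgn ω) (sgn_mem ω) n ⟨C₂ * (C₁ * C) * C₃, fun x hx => ?_⟩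
    rw [GL.euler ω n x x x le_rfl Nat.lt_two_pow_self]
    refine (GL.alpha x x _ _ (GL.Sm_zero_bra ω x _)).trans ?_
    have h1 : ∀ y : ℕ, 1 ≤ y → y ≤ x → |Sm y (star ω (Ico n x))| ≤ C * Real.sqrt y * GL.kr r₁ y := by
      intro y hy hyx
      rw [Sm_star_Ico ω n y x hyx]
      exact hst1 r₁ (le_max_left _ _) y hy
    have h2 := hpsi n x ω C hC h1
    have h3 := hbr n x x x ω (C₁ * C) (le_max_left _ _) Nat.lt_two_pow_self (by positivity) h2
    have h4 : ∀ m ∈ GL.Am x, |Sm (x / (m * m)) (GL.bra ω x (Ico n x))| ≤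
        C₂ * (C₁ * C) * (Real.sqrt ((x / (m * m) : ℕ) : ℝ) * GL.kr 3 (x / (m * m))) := by
      intro m hm
      have hm' : m ∈ Icc 1 x ∧ (m * m ≤ x ∧ ∀ i, ¬ pb i ∣ m) := by
        classical
        unfold GL.Am at hm
        rwa [mem_filter] at hm
      have hm1 : 1 ≤ m := (mem_Icc.1 hm'.1).1
      have hmm : 0 < m * m := Nat.mul_pos hm1 hm1
      refine (h3 (x / (m * m)) ?_ (Nat.div_le_self _ _)).trans (le_of_eq (by ring))
      rw [Nat.le_div_iff_mul_le hmm, one_mul]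
      exact hm'.2.1
    refine (sum_le_sum h4).trans ?_
    rw [← mul_sum]
    have h5 := mul_le_mul_of_nonneg_left (hsum x hx) (show 0 ≤ C₂ * (C₁ * C) by positivity)
    refine h5.trans (le_of_eq (by ring))

end Pool.Agent.Helper66.JC
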