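import Pool.Agent.Helper66.MB.Flip
import Pool.Agent.Helper66.GL.FlipL

/-!
# Joint class theorem (MP_a499ba_nt, Q1 and Q2): definitions

`Φ` is one of the two summatory functions `MB.Mf` (sums of `ext f`, squarefree support) and `GL.Lf` (sums of the completely
multiplicative function `cm f`) attached to a sign function `f` on the primes. `SumOp Φ` lists what is used of them. Changing
the sign of `f` at a prime `p` multiplies both Dirichlet series by `(1 - f p p^{-s}) / (1 + f p p^{-s})`.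
-/

set_option autoImplicit false

namespace Pool.Agent.Helper66.JC

open Finset Filter Pool.Agent.Helper92.GB Pool.Agent.Helper66.MB

/-- Size `O(√x ρ(x))`. -/
def ClG (F : ℕ → ℝ) : Prop := ∃ C : ℝ, ∀ x : ℕ, 1 ≤ x → |F x| ≤ C * Real.sqrt x * rho x

/-- Summatory functions built from signs at the primes. -/
structure SumOp (Φ : (ℕ → ℤ) → ℕ → ℝ) : Prop where
  zero : ∀ f, Φ f 0 = 0
  one : ∀ f, Φ f 1 = 1
  congr : ∀ (f g : ℕ → ℤ) (x : ℕ), (∀ p, p.Prime → p ≤ x → f p = g p) → Φ f x = Φ g x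
  flip : ∀ (f : ℕ → ℤ) (p : ℕ), p.Prime → (f p = 1 ∨ f p = -1) → ∀ x : ℕ,
    Φ (Function.update f p (-f p)) x + f p * Φ (Function.update f p (-f p)) (x / p) =
      Φ f x - f p * Φ f (x / p)
  jump : ∀ f : ℕ → ℤ, (∀ n, f n = 1 ∨ f n = -1) → ∀ n : ℕ, |Φ f (n + 1) - Φ f n| ≤ 1
  cl : ∀ f : ℕ → ℤ, (∀ n, f n = 1 ∨ f n = -1) → ClG (Φ f) → ∀ R : Finset ℕ, ClG (Φ (flipS f R))

/-- The part of `SumOp` which is stable under linear combinations. -/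
structure SumOp0 (Φ : (ℕ → ℤ) → ℕ → ℝ) : Prop where
  zero : ∀ f, Φ f 0 = 0
  flip : ∀ (f : ℕ → ℤ) (p : ℕ), p.Prime → (f p = 1 ∨ f p = -1) → ∀ x : ℕ,
    Φ (Function.update f p (-f p)) x + f p * Φ (Function.update f p (-f p)) (x / p) =
      Φ f x - f p * Φ f (x / p)

theorem SumOp.to0 {Φ : (ℕ → ℤ) → ℕ → ℝ} (h : SumOp Φ) : SumOp0 Φ := ⟨h.zero, h.flip⟩

/-- The component in the direction `(u, v)` of the pair of the two summatory functions. -/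
noncomputable def comp (u v : ℝ) (f : ℕ → ℤ) (x : ℕ) : ℝ := u * Mf f x + v * GL.Lf f x

/-- Result of a preliminary stage: the pair `(F, G)`, divided by `μ √x`, is within `ε` of the segment from `0` to `(u, v)`, and
at `n` it is within `ε` of `(u, v)`. -/
def Peak2 (F G : ℕ → ℝ) (u v ε μ : ℝ) (n : ℕ) : Prop :=
  1 ≤ n ∧ 2 ≤ μ ∧ (∀ x : ℕ, ∃ θ : ℝ, 0 ≤ θ ∧ θ ≤ 1 ∧ |F x - θ * u * μ * Real.sqrt x| ≤ ε * μ * Real.sqrt x ∧
    |G x - θ * v * μ * Real.sqrt x| ≤ ε * μ * Real.sqrt x) ∧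
  |F n - u * μ * Real.sqrt n| ≤ ε * μ * Real.sqrt n ∧ |G n - v * μ * Real.sqrt n| ≤ ε * μ * Real.sqrt n

/-- The main part of the effect of changing signs at the primes of `R`; `e p` is `-2` times the old sign at `p`. -/
noncomputable def mainG (F : ℕ → ℝ) (e : ℕ → ℝ) (R : Finset ℕ) (x : ℕ) : ℝ :=
  ∑ T ∈ R.powerset, (∏ p ∈ T, e p) * F (x / ∏ p ∈ T, p)

/-- Both signs occur often in short intervals near every large number. -/
def Ric (f : ℕ → ℤ) : Prop := ∀ η : ℝ, 0 < η → ∀ e : ℤ, e = 1 ∨ e = -1 → ∃ Y₀ : ℝ, ∀ Y : ℝ, Y₀ ≤ Y →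
  ∃ Z : ℕ, Y ≤ Z ∧ (Z : ℝ) ≤ (1 + η) * Y ∧ (Z : ℝ) ^ ((2 : ℝ) / 3) ≤
    (((Ioc Z (Z + ⌊(Z : ℝ) / Real.log Z⌋₊)).filter (fun p => p.Prime ∧ f p = e)).card : ℝ)

/-- Admissible rates. -/
structure Adm (φ : ℝ → ℝ) : Prop where
  top : Tendsto φ atTop atTop
  mono : ∃ x₀ : ℝ, ∀ x y : ℝ, x₀ ≤ x → x ≤ y → φ x ≤ φ y
  slow : ∀ δ : ℝ, 0 < δ → ∃ x₀ : ℝ, ∀ X x : ℝ, x₀ ≤ X → X ≤ x →
    x ≤ X ^ Real.log (Real.log X) → φ x ≤ (1 + δ) * φ X
  small : Tendsto (fun x : ℝ => φ x ^ 8 / Real.log (Real.log x)) atTop (nhds 0)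

/-- Result of a preliminary stage: the function `s * F` has maximum `μ` (relative to `√x`), attained at `n`, and minimum at least
`-ε μ`, and the function `G` is at most `ε μ`. -/
def Peak (F G : ℕ → ℝ) (s ε μ : ℝ) (n : ℕ) : Prop :=
  1 ≤ n ∧ 1 ≤ μ ∧ s * F n = μ * Real.sqrt n ∧ (∀ x : ℕ, s * F x ≤ μ * Real.sqrt x) ∧
    (∀ x : ℕ, -(ε * μ * Real.sqrt x) ≤ s * F x) ∧ ∀ x : ℕ, |G x| ≤ ε * μ * Real.sqrt x

/-- The four kinds of stages: for `k = 0, 1` the function is `Mf` (with the sign `1`, `-1`), for `k = 2, 3` it is `Lf`. -/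
noncomputable def act (k : Fin 4) : (ℕ → ℤ) → ℕ → ℝ := if (k : ℕ) < 2 then Mf else GL.Lf

/-- The other function. -/
noncomputable def pas (k : Fin 4) : (ℕ → ℤ) → ℕ → ℝ := if (k : ℕ) < 2 then GL.Lf else Mf

/-- The sign of the kind `k`. -/
def sg (k : Fin 4) : ℝ := if (k : ℕ) % 2 = 0 then 1 else -1

end Pool.Agent.Helper66.JC
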