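import Pool.Agent.Helper66.JC.LimD
import Pool.Agent.Helper51.JC.Four
import Pool.Agent.Helper66.GL.ClassK
import Pool.Agent.Helper92.GB.P3
import Pool.Agent.Helper66.MB.Rho

/-!
# Joint class theorem (MP_a499ba_nt): class membership and the rate of Gonek's conjecture
-/

set_option autoImplicit false

namespace Pool.Agent.Helper66.JC

open Finset Filter Pool.Agent.Helper92.GB Pool.Agent.Helper66.MB

/-- The rate of Gonek's conjecture is admissible. -/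
theorem adm_el : Adm el where
  top := el_tendsto
  mono := el_mono
  slow := el_slow
  small := el_small 8

theorem Mf_eq_cm (f : ℕ → ℤ) (x : ℕ) :
    (∑ n ∈ (Icc 1 x).filter Squarefree, ((GL.cm f n : ℤ) : ℝ)) = Mf f x := by
  unfold Mf
  rw [sum_filter]
  refine sum_congr rfl fun n _ => ?_
  split_ifs with h
  · rw [GL.cm_squarefree f h]
  · unfold Helper92.GB.ext
    rw [if_neg h]
    simp

theorem tw_sqf (f : ℕ → ℤ) {q : ℕ} (χ : DirichletCharacter ℂ q) (t : ℝ) (N : ℕ) :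
    (∑ n ∈ (Icc 1 N).filter Squarefree, ((GL.cm f n : ℤ) : ℂ) * χ (n : ZMod q) *
      (n : ℂ) ^ ((t : ℂ) * Complex.I)) = tw (ext f) χ t N := by
  unfold tw npi
  rw [sum_filter]
  refine sum_congr rfl fun n _ => ?_
  split_ifs with h
  · rw [GL.cm_squarefree f h]
  · unfold Helper92.GB.ext
    rw [if_neg h]
    simp

/-- Both families of bounds with one constant. -/
theorem bounds_cm (f : ℕ → ℤ) (hf : ∀ n, f n = 1 ∨ f n = -1) (h : PS f) :
    ∀ ε : ℝ, 0 < ε → ∃ C : ℝ, ∀ (q : ℕ) (χ : DirichletCharacter ℂ q) (t : ℝ) (N : ℕ), 1 ≤ q → 1 ≤ N →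
      ‖∑ n ∈ Icc 1 N, ((GL.cm f n : ℤ) : ℂ) * χ (n : ZMod q) * (n : ℂ) ^ ((t : ℂ) * Complex.I)‖ ≤
        C * ((q : ℝ) * (1 + |t|) * N) ^ ε * (N : ℝ) ^ (1 / 2 : ℝ) ∧
      ‖∑ n ∈ (Icc 1 N).filter Squarefree, ((GL.cm f n : ℤ) : ℂ) * χ (n : ZMod q) *
        (n : ℂ) ^ ((t : ℂ) * Complex.I)‖ ≤
        C * ((q : ℝ) * (1 + |t|) * N) ^ ε * (N : ℝ) ^ (1 / 2 : ℝ) := by
  intro ε hε
  have hP := P3 f (fun p _ => hf p) h
  obtain ⟨C₁, h1⟩ := GL.class_K f hf hP ε hε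
  obtain ⟨C₂, h2⟩ := hP.bound ε hε
  refine ⟨max C₁ C₂, fun q χ t N hq hN => ?_⟩
  have h3 : 0 ≤ ((q : ℝ) * (1 + |t|) * N) ^ ε * (N : ℝ) ^ (1 / 2 : ℝ) := by positivity
  refine ⟨(h1 q χ t N hq hN).trans ?_, ?_⟩
  · have h4 := mul_le_mul_of_nonneg_right (le_max_left C₁ C₂) h3
    rwa [← mul_assoc, ← mul_assoc] at h4
  · rw [tw_sqf]
    refine (h2 q χ t N hq hN).trans ?_
    have h4 := mul_le_mul_of_nonneg_right (le_max_right C₁ C₂) h3
    rwa [← mul_assoc, ← mul_assoc] at h4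

end Pool.Agent.Helper66.JC
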