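import Pool.Agent.Helper66.JC.Defs

/-!
# Joint class theorem (MP_a499ba_nt): effect of sign changes at large primes
-/

set_option autoImplicit false

namespace Pool.Agent.Helper66.JC

open Finset Filter Pool.Agent.Helper92.GB Pool.Agent.Helper66.MB

variable {Φ : (ℕ → ℤ) → ℕ → ℝ}

lemma mu_nonnegG {F : ℕ → ℝ} {μ : ℝ} (hμ : ∀ x : ℕ, |F x| ≤ μ * Real.sqrt x) : 0 ≤ μ := by
  have h := (abs_nonneg _).trans (hμ 1)
  simpa using h

lemma flip_leG (hΦ : SumOp0 Φ) (f : ℕ → ℤ) (p : ℕ) (hp : p.Prime) (hf : f p = 1 ∨ f p = -1) (x : ℕ) :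
    |Φ (Function.update f p (-f p)) x| ≤
      |Φ f x| + |Φ f (x / p)| + |Φ (Function.update f p (-f p)) (x / p)| := by
  have h := hΦ.flip f p hp hf x
  have h1 : Φ (Function.update f p (-f p)) x =
      Φ f x - f p * Φ f (x / p) - f p * Φ (Function.update f p (-f p)) (x / p) := by
    linarith
  rw [h1]
  have h2 := abs_sub (Φ f x - f p * Φ f (x / p)) (f p * Φ (Function.update f p (-f p)) (x / p))
  have h3 := abs_sub (Φ f x) (f p * Φ f (x / p))
  rw [abs_mul, abs_sign hf, one_mul] at h2 h3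
  linarith

lemma flip_one_normG (hΦ : SumOp0 Φ) (g : ℕ → ℤ) (p X : ℕ) (hX : 16 ≤ X) (hp : p.Prime) (hpX : X < p)
    (hg : g p = 1 ∨ g p = -1)
    (B : ℝ) (hB0 : 0 ≤ B) (hB : ∀ y : ℕ, |Φ g y| ≤ B * Real.sqrt y) (y : ℕ) :
    |Φ (Function.update g p (-g p)) y| ≤ B * Real.exp (3 * (Real.sqrt X)⁻¹) * Real.sqrt y := by
  set s : ℝ := (Real.sqrt X)⁻¹ with hs
  have hs0 : 0 ≤ s := by rw [hs]; positivity
  have hs1 : s ≤ 1 / 4 := s_le hX
  have hE : 1 + s + s * Real.exp (3 * s) ≤ Real.exp (3 * s) := by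
    have h1 : 3 * s + 1 ≤ Real.exp (3 * s) := Real.add_one_le_exp _
    nlinarith
  induction y using Nat.strong_induction_on with
  | _ y ih =>
    rcases Nat.eq_zero_or_pos y with h0 | h0
    · subst h0; rw [hΦ.zero]; simp
    · have h1 : y / p < y := Nat.div_lt_self h0 hp.one_lt
      have h2 := ih _ h1
      have h3 := flip_leG hΦ g p hp hg y
      have h4 := hB y
      have h5 := hB (y / p)
      have h6 := sqrt_div_le' hX hpX y
      rw [← hs] at h6
      have h7 : B * Real.sqrt ((y / p : ℕ) : ℝ) ≤ B * (s * Real.sqrt y) :=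
        mul_le_mul_of_nonneg_left h6 hB0
      have h8 : B * Real.exp (3 * s) * Real.sqrt ((y / p : ℕ) : ℝ) ≤
          B * Real.exp (3 * s) * (s * Real.sqrt y) :=
        mul_le_mul_of_nonneg_left h6 (by positivity)
      calc |Φ (Function.update g p (-g p)) y|
          ≤ B * Real.sqrt y + B * (s * Real.sqrt y) + B * Real.exp (3 * s) * (s * Real.sqrt y) := by
            linarith
        _ = B * Real.sqrt y * (1 + s + s * Real.exp (3 * s)) := by ring
        _ ≤ B * Real.sqrt y * Real.exp (3 * s) := by gcongr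
        _ = B * Real.exp (3 * s) * Real.sqrt y := by ring

theorem flip_normG0 (hΦ : SumOp0 Φ) (f : ℕ → ℤ) (hf : ∀ n, f n = 1 ∨ f n = -1) (R : Finset ℕ) (X : ℕ)
    (hX : 16 ≤ X) (hR : ∀ p ∈ R, p.Prime ∧ X < p) (μ : ℝ) (hμ : ∀ x : ℕ, |Φ f x| ≤ μ * Real.sqrt x)
    (x : ℕ) : |Φ (flipS f R) x| ≤ μ * Real.exp (3 * R.card / Real.sqrt X) * Real.sqrt x := by
  classical
  have hμ0 := mu_nonnegG hμ
  induction R using Finset.induction_on generalizing x with
  | empty => rw [flipS_empty]; simpa using hμ x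
  | insert p R hp ih =>
    have ih' := ih (fun q hq => hR q (mem_insert_of_mem hq))
    obtain ⟨h1, h2⟩ := hR p (mem_insert_self p R)
    rw [flipS_insert f hp]
    have h4 := flip_one_normG hΦ (flipS f R) p X hX h1 h2 (by rw [flipS_apply_notMem f hp]; exact hf p)
      (μ * Real.exp (3 * R.card / Real.sqrt X)) (by positivity) ih' x
    refine h4.trans (le_of_eq ?_)
    rw [card_insert_of_notMem hp, mul_assoc μ, ← Real.exp_add]
    congr 3
    push_cast
    field_simp

lemma mainG_empty (F : ℕ → ℝ) (e : ℕ → ℝ) (x : ℕ) : mainG F e ∅ x = F x := by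
  simp [mainG]

lemma mainG_insert (F : ℕ → ℝ) (e : ℕ → ℝ) {p : ℕ} {R : Finset ℕ} (h : p ∉ R) (x : ℕ) :
    mainG F e (insert p R) x = mainG F e R x + e p * mainG F e R (x / p) := by
  classical
  unfold mainG
  rw [sum_powerset_insert h, mul_sum]
  congr 1
  refine sum_congr rfl fun T hT => ?_
  have hpT : p ∉ T := fun h' => h (mem_powerset.1 hT h')
  rw [prod_insert hpT, prod_insert hpT, Nat.div_div_eq_div_mul]
  ring

theorem flip_mainG0 (hΦ : SumOp0 Φ) (f : ℕ → ℤ) (hf : ∀ n, f n = 1 ∨ f n = -1) (R : Finset ℕ) (X : ℕ)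
    (hX : 16 ≤ X) (hR : ∀ p ∈ R, p.Prime ∧ X < p) (μ : ℝ) (hμ : ∀ x : ℕ, |Φ f x| ≤ μ * Real.sqrt x)
    (x : ℕ) :
    |Φ (flipS f R) x - mainG (Φ f) (fun p => -2 * (f p : ℝ)) R x| ≤
      μ * (2 * R.card / X) * Real.exp (5 * R.card / Real.sqrt X) * Real.sqrt x := by
  classical
  have hμ0 := mu_nonnegG hμ
  have hX0 : (0 : ℝ) < X := by exact_mod_cast (by omega : 0 < X)
  set s : ℝ := (Real.sqrt X)⁻¹ with hs
  have hs0 : 0 ≤ s := by rw [hs]; positivity
  have hs1 : s ≤ 1 / 4 := s_le hX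
  have hss : s * s = (X : ℝ)⁻¹ := by
    rw [hs, ← mul_inv, Real.mul_self_sqrt hX0.le]
  induction R using Finset.induction_on generalizing x with
  | empty => rw [flipS_empty, mainG_empty]; simp
  | insert p R hp ih =>
    have hR' : ∀ q ∈ R, q.Prime ∧ X < q := fun q hq => hR q (mem_insert_of_mem hq)
    have ih' := ih hR'
    obtain ⟨h1, h2⟩ := hR p (mem_insert_self p R)
    have hn := flip_normG0 hΦ f hf R X hX hR' μ hμ
    have hn' := flip_normG0 hΦ f hf (insert p R) X hX hR μ hμ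
    have hg1 : flipS f R p = f p := by rw [flipS_apply_notMem f hp]
    have hg : flipS f R p = 1 ∨ flipS f R p = -1 := by rw [hg1]; exact hf p
    have hf1 := hΦ.flip (flipS f R) p h1 hg x
    have hf2 := hΦ.flip (flipS f R) p h1 hg (x / p)
    rw [← flipS_insert f hp, hg1] at hf1 hf2
    rw [mainG_insert _ _ hp]
    set a : ℝ := (f p : ℝ) with hadef
    have ha1 : |a| = 1 := abs_sign (hf p)
    have haa : a * a = 1 := by
      rcases hf p with h | h <;> rw [hadef, h] <;> norm_num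
    set n : ℝ := (R.card : ℝ) with hndef
    have hn0 : 0 ≤ n := by rw [hndef]; positivity
    have hcard : (((insert p R).card : ℕ) : ℝ) = n + 1 := by
      rw [card_insert_of_notMem hp]; push_cast; rfl
    have hq1 := sqrt_div_le' hX h2 x
    have hq2 : Real.sqrt ((x / p / p : ℕ) : ℝ) ≤ s * (s * Real.sqrt x) := by
      have h5 := sqrt_div_le' hX h2 (x / p)
      refine h5.trans ?_
      rw [← hs] at hq1 ⊢
      exact mul_le_mul_of_nonneg_left hq1 hs0
    rw [← hs] at hq1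
    set m : ℕ → ℝ := mainG (Φ f) (fun p => -2 * (f p : ℝ)) R with hm
    have hid : Φ (flipS f (insert p R)) x - (m x + -2 * a * m (x / p)) =
        (Φ (flipS f R) x - m x) - 2 * (a * (Φ (flipS f R) (x / p) - m (x / p))) +
          Φ (flipS f R) (x / p / p) + Φ (flipS f (insert p R)) (x / p / p) := by
      linear_combination hf1 - a * hf2 +
        (Φ (flipS f (insert p R)) (x / p / p) + Φ (flipS f R) (x / p / p)) * haa
    rw [hid]
    have e1 := ih' x
    have e2 := ih' (x / p)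
    have e3 := hn (x / p / p)
    have e4 := hn' (x / p / p)
    rw [hcard] at e4 ⊢
    have hdiv : ∀ c : ℝ, c / Real.sqrt X = c * s := fun c => by rw [hs, div_eq_mul_inv]
    have hdivX : ∀ c : ℝ, c / (X : ℝ) = c * (s * s) := fun c => by rw [hss, div_eq_mul_inv]
    simp only [hdiv, hdivX] at e1 e2 e3 e4 ⊢
    set u : ℝ := Real.sqrt x with hu
    have hu0 : 0 ≤ u := Real.sqrt_nonneg _
    have t1 : |Φ (flipS f R) (x / p) - m (x / p)| ≤
        μ * (2 * n * (s * s)) * Real.exp (5 * n * s) * (s * u) :=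
      e2.trans (mul_le_mul_of_nonneg_left hq1 (by positivity))
    have t2 : |Φ (flipS f R) (x / p / p)| ≤ μ * Real.exp (3 * n * s) * (s * (s * u)) :=
      e3.trans (mul_le_mul_of_nonneg_left hq2 (by positivity))
    have t3 : |Φ (flipS f (insert p R)) (x / p / p)| ≤
        μ * Real.exp (3 * (n + 1) * s) * (s * (s * u)) :=
      e4.trans (mul_le_mul_of_nonneg_left hq2 (by positivity))
    have t2' : |Φ (flipS f R) (x / p / p)| ≤ μ * Real.exp (5 * (n + 1) * s) * (s * (s * u)) := by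
      refine t2.trans (mul_le_mul_of_nonneg_right (mul_le_mul_of_nonneg_left
        (Real.exp_le_exp.2 ?_) hμ0) (by positivity))
      nlinarith [mul_nonneg hn0 hs0]
    have t3' : |Φ (flipS f (insert p R)) (x / p / p)| ≤
        μ * Real.exp (5 * (n + 1) * s) * (s * (s * u)) := by
      refine t3.trans (mul_le_mul_of_nonneg_right (mul_le_mul_of_nonneg_left
        (Real.exp_le_exp.2 ?_) hμ0) (by positivity))
      nlinarith [mul_nonneg hn0 hs0]
    have hE : Real.exp (5 * n * s) * (1 + 2 * s) ≤ Real.exp (5 * (n + 1) * s) := by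
      have h6 : 1 + 2 * s ≤ Real.exp (5 * s) := by
        have := Real.add_one_le_exp (5 * s)
        linarith
      calc Real.exp (5 * n * s) * (1 + 2 * s) ≤ Real.exp (5 * n * s) * Real.exp (5 * s) := by gcongr
        _ = Real.exp (5 * (n + 1) * s) := by rw [← Real.exp_add]; congr 1; ring
    have habs : ∀ a' b c d : ℝ, |a' - 2 * (a * b) + c + d| ≤ |a'| + 2 * |b| + |c| + |d| := by
      intro a' b c d
      have i1 := abs_add_le (a' - 2 * (a * b) + c) d
      have i2 := abs_add_le (a' - 2 * (a * b)) c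
      have i3 := abs_sub a' (2 * (a * b))
      have i4 : |2 * (a * b)| = 2 * |b| := by rw [abs_mul, abs_mul, ha1]; norm_num
      linarith
    refine (habs _ _ _ _).trans ?_
    calc |Φ (flipS f R) x - m x| + 2 * |Φ (flipS f R) (x / p) - m (x / p)| +
          |Φ (flipS f R) (x / p / p)| + |Φ (flipS f (insert p R)) (x / p / p)|
        ≤ μ * (2 * n * (s * s)) * Real.exp (5 * n * s) * u +
          2 * (μ * (2 * n * (s * s)) * Real.exp (5 * n * s) * (s * u)) +
          μ * Real.exp (5 * (n + 1) * s) * (s * (s * u)) +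
          μ * Real.exp (5 * (n + 1) * s) * (s * (s * u)) := by linarith
      _ = μ * (2 * n * (s * s)) * u * (Real.exp (5 * n * s) * (1 + 2 * s)) +
          2 * (s * s) * μ * u * Real.exp (5 * (n + 1) * s) := by ring
      _ ≤ μ * (2 * n * (s * s)) * u * Real.exp (5 * (n + 1) * s) +
          2 * (s * s) * μ * u * Real.exp (5 * (n + 1) * s) := by gcongr
      _ = μ * (2 * (n + 1) * (s * s)) * Real.exp (5 * (n + 1) * s) * u := by ring

theorem flip_normG (hΦ : SumOp Φ) (f : ℕ → ℤ) (hf : ∀ n, f n = 1 ∨ f n = -1) (R : Finset ℕ) (X : ℕ)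
    (hX : 16 ≤ X) (hR : ∀ p ∈ R, p.Prime ∧ X < p) (μ : ℝ) (hμ : ∀ x : ℕ, |Φ f x| ≤ μ * Real.sqrt x)
    (x : ℕ) : |Φ (flipS f R) x| ≤ μ * Real.exp (3 * R.card / Real.sqrt X) * Real.sqrt x :=
  flip_normG0 hΦ.to0 f hf R X hX hR μ hμ x

theorem flip_mainG (hΦ : SumOp Φ) (f : ℕ → ℤ) (hf : ∀ n, f n = 1 ∨ f n = -1) (R : Finset ℕ) (X : ℕ)
    (hX : 16 ≤ X) (hR : ∀ p ∈ R, p.Prime ∧ X < p) (μ : ℝ) (hμ : ∀ x : ℕ, |Φ f x| ≤ μ * Real.sqrt x)
    (x : ℕ) :
    |Φ (flipS f R) x - mainG (Φ f) (fun p => -2 * (f p : ℝ)) R x| ≤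
      μ * (2 * R.card / X) * Real.exp (5 * R.card / Real.sqrt X) * Real.sqrt x :=
  flip_mainG0 hΦ.to0 f hf R X hX hR μ hμ x

end Pool.Agent.Helper66.JC
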