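import Pool.Agent.Helper66.JC.Stage
import Pool.Agent.Helper66.JC.Base
import Pool.Agent.Helper66.MB.Glue

/-!
# Joint class theorem (MP_a499ba_nt): the stages are put together
-/

set_option autoImplicit false

namespace Pool.Agent.Helper66.JC

open Finset Filter Pool.Agent.Helper92.GB Pool.Agent.Helper66.MB

theorem PS_close (f g : ℕ → ℤ) (hg : PS g) (D : Set ℕ) [DecidablePred (fun n => n ∈ D)]
    (h : ∀ n, n ∉ D → f n = g n) (h2 : ∀ n, |f n - g n| ≤ 2) (K : ℝ) (hK : 0 ≤ K)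
    (hc : ∀ y : ℕ, (((Icc 1 y).filter (fun n => n ∈ D)).card : ℝ) ≤ K * (Real.sqrt y * Real.log y)) :
    PS f := by
  intro ε hε
  obtain ⟨C, hC⟩ := hg ε hε
  have hl2 : 0 < Real.log 2 := Real.log_pos (by norm_num)
  refine ⟨C + 2 * K / ε / Real.log 2, fun q χ t y hq => ?_⟩
  have hL : Real.log 2 ≤ Real.log (q * (2 + |t|)) := by
    refine Real.log_le_log (by norm_num) ?_
    have h1 : (1 : ℝ) ≤ q := by exact_mod_cast hq
    nlinarith [abs_nonneg t]
  have h3 : ∑ p ∈ (Icc 1 y).filter Nat.Prime, (f p : ℂ) * χ (p : ZMod q) * npi p t =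
      ∑ p ∈ (Icc 1 y).filter Nat.Prime, (g p : ℂ) * χ (p : ZMod q) * npi p t +
      ∑ p ∈ (Icc 1 y).filter Nat.Prime, ((f p - g p : ℤ) : ℂ) * χ (p : ZMod q) * npi p t := by
    rw [← sum_add_distrib]
    refine sum_congr rfl fun p _ => ?_
    push_cast
    ring
  have h4 : ‖∑ p ∈ (Icc 1 y).filter Nat.Prime, ((f p - g p : ℤ) : ℂ) * χ (p : ZMod q) * npi p t‖ ≤
      2 * (((Icc 1 y).filter (fun n => n ∈ D)).card : ℝ) := by
    refine (norm_sum_le _ _).trans ?_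
    have h5 : ∀ p ∈ (Icc 1 y).filter Nat.Prime,
        ‖((f p - g p : ℤ) : ℂ) * χ (p : ZMod q) * npi p t‖ ≤ if p ∈ D then (2 : ℝ) else 0 := by
      intro p hp
      have hp0 : 0 < p := (mem_Icc.1 (mem_filter.1 hp).1).1
      rw [norm_mul, norm_mul, norm_npi_le p t hp0, mul_one]
      split_ifs with hD
      · have h6 : ‖((f p - g p : ℤ) : ℂ)‖ ≤ 2 := by
          rw [Complex.norm_intCast]
          exact_mod_cast h2 p
        have h7 : ‖χ (p : ZMod q)‖ ≤ 1 := χ.norm_le_one _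
        nlinarith [norm_nonneg ((f p - g p : ℤ) : ℂ), norm_nonneg (χ (p : ZMod q))]
      · rw [h p hD]; simp
    refine (sum_le_sum h5).trans ?_
    rw [← sum_filter, sum_const, nsmul_eq_mul, mul_comm]
    refine mul_le_mul_of_nonneg_left ?_ (by norm_num)
    have h8 : ((Icc 1 y).filter Nat.Prime).filter (fun n => n ∈ D) ⊆ (Icc 1 y).filter (fun n => n ∈ D) := by
      intro n hn
      rw [mem_filter, mem_filter] at hn
      exact mem_filter.2 ⟨hn.1.1, hn.2⟩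
    exact_mod_cast card_le_card h8
  have h9 : 2 * K * (Real.sqrt y * Real.log y) ≤ 2 * K / ε * (y : ℝ) ^ (1 / 2 + ε) := by
    rcases Nat.eq_zero_or_pos y with rfl | hy
    · simp only [Nat.cast_zero, Real.sqrt_zero, zero_mul, mul_zero]
      positivity
    · have hy' : (0 : ℝ) < y := by exact_mod_cast hy
      have h10 := Real.log_le_rpow_div hy'.le hε
      rw [Real.rpow_add hy', ← Real.sqrt_eq_rpow]
      calc 2 * K * (Real.sqrt y * Real.log y) ≤ 2 * K * (Real.sqrt y * ((y : ℝ) ^ ε / ε)) := by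
            gcongr
        _ = 2 * K / ε * (Real.sqrt y * (y : ℝ) ^ ε) := by ring
  have h11 : 0 ≤ 2 * K / ε * (y : ℝ) ^ (1 / 2 + ε) := by positivity
  have h12 : 2 * K / ε * (y : ℝ) ^ (1 / 2 + ε) ≤
      2 * K / ε / Real.log 2 * (y : ℝ) ^ (1 / 2 + ε) * Real.log (q * (2 + |t|)) := by
    have h13 : 2 * K / ε * (y : ℝ) ^ (1 / 2 + ε) * Real.log 2 ≤
        2 * K / ε * (y : ℝ) ^ (1 / 2 + ε) * Real.log (q * (2 + |t|)) :=
      mul_le_mul_of_nonneg_left hL h11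
    calc 2 * K / ε * (y : ℝ) ^ (1 / 2 + ε) =
          (2 * K / ε * (y : ℝ) ^ (1 / 2 + ε) * Real.log 2) / Real.log 2 := by field_simp
      _ ≤ (2 * K / ε * (y : ℝ) ^ (1 / 2 + ε) * Real.log (q * (2 + |t|))) / Real.log 2 :=
          div_le_div_of_nonneg_right h13 hl2.le
      _ = 2 * K / ε / Real.log 2 * (y : ℝ) ^ (1 / 2 + ε) * Real.log (q * (2 + |t|)) := by ring
  calc ‖∑ p ∈ (Icc 1 y).filter Nat.Prime, (f p : ℂ) * χ (p : ZMod q) * npi p t‖
      ≤ C * (y : ℝ) ^ (1 / 2 + ε) * Real.log (q * (2 + |t|)) +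
        2 * (((Icc 1 y).filter (fun n => n ∈ D)).card : ℝ) := by
        rw [h3]
        exact (norm_add_le _ _).trans (add_le_add (hC q χ t y hq) h4)
    _ ≤ C * (y : ℝ) ^ (1 / 2 + ε) * Real.log (q * (2 + |t|)) +
        2 * K / ε / Real.log 2 * (y : ℝ) ^ (1 / 2 + ε) * Real.log (q * (2 + |t|)) := by
        have := hc y
        linarith
    _ = (C + 2 * K / ε / Real.log 2) * (y : ℝ) ^ (1 / 2 + ε) * Real.log (q * (2 + |t|)) := by ring

/-- Finitely many changes of sign. -/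
theorem PS_flipS {g : ℕ → ℤ} (hs : ∀ n, g n = 1 ∨ g n = -1) (hg : PS g) (S : Finset ℕ)
    (hS : ∀ p ∈ S, p.Prime) : PS (flipS g S) := by
  classical
  refine PS_close (flipS g S) g hg (S : Set ℕ) ?_ ?_ (2 * S.card) (by positivity) ?_
  · intro n hn
    unfold flipS
    rw [if_neg (by simpa using hn)]
  · intro n
    unfold flipS
    rcases hs n with h | h <;> split_ifs <;> simp [h]
  · intro y
    rcases lt_or_ge y 2 with hy | hy
    · have h1 : (Icc 1 y).filter (fun n => n ∈ (S : Set ℕ)) = ∅ := by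
        refine filter_eq_empty_iff.2 fun n hn hnS => ?_
        have h2 := (hS n (by simpa using hnS)).two_le
        rw [mem_Icc] at hn
        omega
      rw [h1, card_empty, Nat.cast_zero]
      exact mul_nonneg (by positivity) (mul_nonneg (Real.sqrt_nonneg _) (Real.log_natCast_nonneg _))
    · have h1 : (((Icc 1 y).filter (fun n => n ∈ (S : Set ℕ))).card : ℝ) ≤ S.card := by
        have h2 : (Icc 1 y).filter (fun n => n ∈ (S : Set ℕ)) ⊆ S := by
          intro n hn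
          simpa using (mem_filter.1 hn).2
        exact_mod_cast card_le_card h2
      have h3 : (1 : ℝ) / 2 ≤ Real.sqrt y * Real.log y := by
        have h4 : (2 : ℝ) ≤ y := by exact_mod_cast hy
        have h5 : 1 ≤ Real.sqrt y := by
          rw [Real.one_le_sqrt]; linarith
        have h6 : (1 : ℝ) / 2 ≤ Real.log y := by
          have h7 := Real.log_two_gt_d9
          have h8 : Real.log 2 ≤ Real.log y := Real.log_le_log (by norm_num) h4
          linarith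
        nlinarith
      have h9 : (0 : ℝ) ≤ S.card := Nat.cast_nonneg _
      nlinarith

/-- The kind of the stage `j`. -/
def kd (j : ℕ) : Fin 4 := ⟨j % 4, Nat.mod_lt _ (by norm_num)⟩

/-- The conditions of the stage `j`. -/
def Pst2 (φ : ℝ → ℝ) (f₀ : ℕ → ℤ) (b δ : ℕ → ℝ) (N₀ j : ℕ) (σ : ℕ → ℕ × ℕ × Finset ℕ) : Prop :=
  (∀ i < j, 16 * (σ i).2.1 ≤ (σ j).1) ∧
  j + 1 + N₀ ≤ (σ j).1 ∧ (σ j).1 ≤ (σ j).2.1 ∧
  (∀ p ∈ (σ j).2.2, p.Prime ∧ (σ j).1 < p ∧ p ≤ (σ j).2.1) ∧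
  (∀ y : ℕ, (((σ j).2.2.filter (fun p => p ≤ y)).card : ℝ) ≤ 2 * (Real.sqrt y * Real.log y)) ∧
  (∀ x : ℕ, (σ j).1 ≤ x →
    -(δ j * (Real.sqrt x * φ x)) ≤ sg (kd j) * act (kd j) (flipS (flipS f₀ (US σ j)) (σ j).2.2) x ∧
    sg (kd j) * act (kd j) (flipS (flipS f₀ (US σ j)) (σ j).2.2) x ≤ (b j + δ j) * (Real.sqrt x * φ x) ∧
    |pas (kd j) (flipS (flipS f₀ (US σ j)) (σ j).2.2) x| ≤ δ j * (Real.sqrt x * φ x)) ∧
  ∃ x : ℕ, (σ j).1 ≤ x ∧ x ≤ (σ j).2.1 ∧
    (b j - δ j) * (Real.sqrt x * φ x) ≤ sg (kd j) * act (kd j) (flipS (flipS f₀ (US σ j)) (σ j).2.2) x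

theorem Pst2_local (φ : ℝ → ℝ) (f₀ : ℕ → ℤ) (b δ : ℕ → ℝ) (N₀ j : ℕ) (σ τ : ℕ → ℕ × ℕ × Finset ℕ)
    (h : ∀ i ≤ j, σ i = τ i) (hP : Pst2 φ f₀ b δ N₀ j σ) : Pst2 φ f₀ b δ N₀ j τ := by
  obtain ⟨h1, h2, h3, h4, h5, h6, h7⟩ := hP
  have hU : US σ j = US τ j := US_congr fun i hi => h i hi.le
  rw [h j le_rfl] at h2 h3 h4 h5 h6 h7
  rw [hU] at h6 h7
  refine ⟨fun i hi => ?_, h2, h3, h4, h5, h6, h7⟩
  have := h1 i hi
  rw [h j le_rfl, h i hi.le] at this
  exact this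

theorem Pst2_exists {φ : ℝ → ℝ} (hφ : Adm φ) (f₀ : ℕ → ℤ) (h0 : ∀ n, f₀ n = 1 ∨ f₀ n = -1)
    (hM : ClG (Mf f₀)) (hL : ClG (GL.Lf f₀)) (hR : Ric f₀)
    (b δ : ℕ → ℝ) (hb : ∀ j, 0 < b j) (hδ : ∀ j, 0 < δ j) (N₀ j : ℕ) (σ : ℕ → ℕ × ℕ × Finset ℕ) :
    ∃ a : ℕ × ℕ × Finset ℕ, Pst2 φ f₀ b δ N₀ j (Function.update σ j a) := by
  obtain ⟨X, N, R, hX, hXN, hR', hRc, hup, hlo⟩ := stage2 hφ (flipS f₀ (US σ j)) (flipS_sign h0 _)
    (sumOp_M.cl f₀ h0 hM _) (sumOp_L.cl f₀ h0 hL _) (ric_flipS f₀ hR _) (kd j) (b j) (δ j) (hb j) (hδ j)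
    (j + 1 + N₀ + ∑ i ∈ range j, 16 * (σ i).2.1)
  refine ⟨(X, N, R), ?_⟩
  have hU : US (Function.update σ j (X, N, R)) j = US σ j :=
    US_congr fun i hi => by rw [Function.update_of_ne (by omega)]
  unfold Pst2
  rw [hU, Function.update_self]
  refine ⟨fun i hi => ?_, by omega, hXN, hR', hRc, hup, hlo⟩
  rw [Function.update_of_ne (by omega)]
  have h1 : 16 * (σ i).2.1 ≤ ∑ i ∈ range j, 16 * (σ i).2.1 :=
    Finset.single_le_sum (f := fun i => 16 * (σ i).2.1) (fun _ _ => Nat.zero_le _) (mem_range.2 hi)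
  show 16 * (σ i).2.1 ≤ X
  omega

theorem glue_gen {φ : ℝ → ℝ} (hφ : Adm φ) (f₀ : ℕ → ℤ) (h0 : ∀ n, f₀ n = 1 ∨ f₀ n = -1)
    (hPS : PS f₀) (hM : ClG (Mf f₀)) (hL : ClG (GL.Lf f₀)) (hR : Ric f₀)
    (b δ : ℕ → ℝ) (hb : ∀ j, 0 < b j) (hδ : ∀ j, 0 < δ j) (N₀ : ℕ) :
    ∃ (f : ℕ → ℤ) (X : ℕ → ℕ), (∀ n, f n = 1 ∨ f n = -1) ∧ (∀ p : ℕ, p ≤ N₀ → f p = f₀ p) ∧
      PS f ∧ StrictMono X ∧
      (∀ j x : ℕ, X j ≤ x → x < X (j + 1) →
        -(δ j * (Real.sqrt x * φ x)) ≤ sg (kd j) * act (kd j) f x ∧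
        sg (kd j) * act (kd j) f x ≤ (b j + δ j) * (Real.sqrt x * φ x) ∧
        |pas (kd j) f x| ≤ δ j * (Real.sqrt x * φ x)) ∧
      ∀ j : ℕ, ∃ x : ℕ, X j ≤ x ∧ (b j - δ j) * (Real.sqrt x * φ x) ≤ sg (kd j) * act (kd j) f x := by
  classical
  obtain ⟨σ, hσ⟩ := SEQ (Pst2 φ f₀ b δ N₀) (Pst2_local φ f₀ b δ N₀)
    (Pst2_exists hφ f₀ h0 hM hL hR b δ hb hδ N₀)
  have hNX : ∀ j, 16 * (σ j).2.1 ≤ (σ (j + 1)).1 := fun j => (hσ (j + 1)).1 j (by omega)
  have hXN : ∀ j, (σ j).1 ≤ (σ j).2.1 := fun j => (hσ j).2.2.1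
  have hX1 : ∀ j, j + 1 + N₀ ≤ (σ j).1 := fun j => (hσ j).2.1
  have hlt : ∀ j, (σ j).1 < (σ (j + 1)).1 := by
    intro j
    have h1 := hNX j
    have h2 := hXN j
    have h3 := hX1 j
    omega
  have hmono : StrictMono fun j => (σ j).1 := strictMono_nat_of_lt_succ hlt
  have hle : ∀ i j, i ≤ j → (σ i).1 ≤ (σ j).1 := fun i j h => hmono.monotone h
  have hmem : ∀ j, ∀ p ∈ (σ j).2.2, (σ j).1 < p ∧ p ≤ (σ j).2.1 := fun j p hp => ((hσ j).2.2.2.1 p hp).2
  let f : ℕ → ℤ := fun n => if ∃ j, n ∈ (σ j).2.2 then -f₀ n else f₀ n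
  have hfdef : ∀ n, f n = if ∃ j, n ∈ (σ j).2.2 then -f₀ n else f₀ n := fun n => rfl
  have hmemU : ∀ j n, n ≤ (σ j).1 → ((∃ i, n ∈ (σ i).2.2) ↔ n ∈ US σ j) := by
    intro j n hn
    unfold US
    rw [mem_biUnion]
    constructor
    · rintro ⟨i, hi⟩
      refine ⟨i, ?_, hi⟩
      rw [mem_range]
      by_contra hij
      have h1 := hle j i (by omega)
      have h2 := (hmem i n hi).1
      omega
    · rintro ⟨i, -, hi⟩
      exact ⟨i, hi⟩
  have hUs : ∀ j, US σ (j + 1) = (σ j).2.2 ∪ US σ j := by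
    intro j
    unfold US
    rw [range_add_one, biUnion_insert]
  have hdouble : ∀ j n, flipS (flipS f₀ (US σ j)) (σ j).2.2 n = flipS f₀ (US σ (j + 1)) n := by
    intro j n
    rw [hUs j, union_comm, ← flipS_union]
    rw [Finset.disjoint_left]
    intro p hp hp'
    unfold US at hp
    rw [mem_biUnion] at hp
    obtain ⟨i, hi, hn⟩ := hp
    have h3 := (hmem i p hn).2
    have h4 := (hmem j p hp').1
    have h5 := (hσ j).1 i (mem_range.1 hi)
    have h6 := hX1 j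
    omega
  have hag : ∀ j x, x ≤ (σ (j + 1)).1 → ∀ p : ℕ, p.Prime → p ≤ x →
      f p = flipS (flipS f₀ (US σ j)) (σ j).2.2 p := by
    intro j x hx p _ hp
    rw [hdouble, hfdef]
    unfold flipS
    simp only [hmemU (j + 1) p (hp.trans hx)]
  have hagA : ∀ j x, x ≤ (σ (j + 1)).1 →
      act (kd j) f x = act (kd j) (flipS (flipS f₀ (US σ j)) (σ j).2.2) x :=
    fun j x hx => (sumOp_act (kd j)).congr _ _ x (hag j x hx)
  have hagP : ∀ j x, x ≤ (σ (j + 1)).1 →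
      pas (kd j) f x = pas (kd j) (flipS (flipS f₀ (US σ j)) (σ j).2.2) x :=
    fun j x hx => (sumOp_pas (kd j)).congr _ _ x (hag j x hx)
  have hfs : ∀ n, f n = 1 ∨ f n = -1 := by
    intro n
    rw [hfdef]
    rcases h0 n with h | h <;> split_ifs <;> simp [h]
  -- counting
  have hRj : ∀ j, ((σ j).2.2.card : ℝ) ≤ 2 * (Real.sqrt (σ j).2.1 * Real.log (σ j).2.1) := by
    intro j
    have h1 := (hσ j).2.2.2.2.1 (σ j).2.1
    rwa [filter_true_of_mem fun p hp => (hmem j p hp).2] at h1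
  have hstep : ∀ (m y : ℕ), 1 ≤ m → 16 * m ≤ y →
      4 * (Real.sqrt m * Real.log m) ≤ Real.sqrt y * Real.log y := by
    intro m y hm hy
    have h5 : (16 : ℝ) * (m : ℝ) ≤ (y : ℝ) := by exact_mod_cast hy
    have h8 : (1 : ℝ) ≤ (m : ℝ) := by exact_mod_cast hm
    have h6 : 4 * Real.sqrt m ≤ Real.sqrt y := by
      have h7 : Real.sqrt (16 * (m : ℝ)) = 4 * Real.sqrt m := by
        rw [Real.sqrt_mul (by norm_num), show (16 : ℝ) = 4 ^ 2 by norm_num, Real.sqrt_sq (by norm_num)]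
      rw [← h7]
      exact Real.sqrt_le_sqrt h5
    have h10 : Real.log m ≤ Real.log y := Real.log_le_log (by linarith) (by linarith)
    have h12 : 4 * Real.sqrt m * Real.log m ≤ Real.sqrt y * Real.log y :=
      mul_le_mul h6 h10 (Real.log_natCast_nonneg _) (Real.sqrt_nonneg _)
    linarith
  have hN1 : ∀ j, 1 ≤ (σ j).2.1 := by
    intro j
    have h1 := hX1 j
    have h2 := hXN j
    omega
  have hUc : ∀ j, ((US σ (j + 1)).card : ℝ) ≤ 4 * (Real.sqrt (σ j).2.1 * Real.log (σ j).2.1) := by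
    intro j
    have h00 : ∀ j, 0 ≤ Real.sqrt (σ j).2.1 * Real.log (σ j).2.1 := fun j =>
      mul_nonneg (Real.sqrt_nonneg _) (Real.log_natCast_nonneg _)
    induction j with
    | zero =>
      have h1 : US σ (0 + 1) = (σ 0).2.2 := by simp [US]
      rw [h1]
      have h2 := hRj 0
      have h3 := h00 0
      linarith
    | succ j ih =>
      have h2 : ((US σ (j + 1 + 1)).card : ℝ) ≤
          ((σ (j + 1)).2.2.card : ℝ) + ((US σ (j + 1)).card : ℝ) := by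
        rw [hUs (j + 1)]
        exact_mod_cast card_union_le _ _
      have h3 := hRj (j + 1)
      have h4 := hstep (σ j).2.1 (σ (j + 1)).2.1 (hN1 j) ((hNX j).trans (hXN (j + 1)))
      have h5 := h00 (j + 1)
      linarith
  have hUy : ∀ j y, (σ j).1 < y → ((US σ j).card : ℝ) ≤ Real.sqrt y * Real.log y := by
    intro j y hy
    cases j with
    | zero =>
      have h1 : US σ 0 = ∅ := by simp [US]
      rw [h1, card_empty, Nat.cast_zero]
      exact mul_nonneg (Real.sqrt_nonneg _) (Real.log_natCast_nonneg _)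
    | succ j => exact (hUc j).trans (hstep _ _ (hN1 j) ((hNX j).trans hy.le))
  refine ⟨f, fun j => (σ j).1, hfs, ?_, ?_, hmono, ?_, ?_⟩
  · intro p hp
    rw [hfdef, if_neg]
    rintro ⟨j, hj⟩
    have h1 := (hmem j p hj).1
    have h2 := hX1 j
    omega
  · refine PS_close f f₀ hPS {n | ∃ j, n ∈ (σ j).2.2} ?_ ?_ 3 (by norm_num) ?_
    · intro n hn
      have hn' : ¬ ∃ j, n ∈ (σ j).2.2 := hn
      rw [hfdef, if_neg hn']
    · intro n
      rw [hfdef]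
      rcases h0 n with h | h <;> split_ifs <;> simp [h]
    · intro y
      have h00 : 0 ≤ Real.sqrt y * Real.log y :=
        mul_nonneg (Real.sqrt_nonneg _) (Real.log_natCast_nonneg _)
      by_cases hex : ∃ j, (σ j).1 < y
      · obtain ⟨j₀, hj₀⟩ := hex
        have hj₀y : j₀ ≤ y := by
          have := hX1 j₀
          omega
        obtain ⟨J, hJ, hJ1⟩ : ∃ J, (σ J).1 < y ∧ y ≤ (σ (J + 1)).1 := by
          refine ⟨Nat.findGreatest (fun j => (σ j).1 < y) y,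
            Nat.findGreatest_spec (P := fun j => (σ j).1 < y) hj₀y hj₀, ?_⟩
          by_contra hlt'
          have h1 : (σ (Nat.findGreatest (fun j => (σ j).1 < y) y + 1)).1 < y := by omega
          have h2 := hX1 (Nat.findGreatest (fun j => (σ j).1 < y) y + 1)
          have h4 : Nat.findGreatest (fun j => (σ j).1 < y) y + 1 ≤ y := by omega
          have h3 := Nat.le_findGreatest (P := fun j => (σ j).1 < y) h4 h1
          omega
        have hsub : (Icc 1 y).filter (fun n => n ∈ {n | ∃ j, n ∈ (σ j).2.2}) ⊆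
            (σ J).2.2.filter (fun p => p ≤ y) ∪ US σ J := by
          intro n hn
          rw [mem_filter, mem_Icc] at hn
          have h1 := (hmemU (J + 1) n (hn.1.2.trans hJ1)).1 hn.2
          rw [hUs J, mem_union] at h1
          rw [mem_union, mem_filter]
          exact h1.imp (fun h => ⟨h, hn.1.2⟩) id
        have h1 : (((Icc 1 y).filter (fun n => n ∈ {n | ∃ j, n ∈ (σ j).2.2})).card : ℝ) ≤
            (((σ J).2.2.filter (fun p => p ≤ y)).card : ℝ) + ((US σ J).card : ℝ) := by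
          exact_mod_cast (card_le_card hsub).trans (card_union_le _ _)
        have h2 := (hσ J).2.2.2.2.1 y
        have h3 := hUy J y hJ
        linarith
      · push Not at hex
        have hempty : (Icc 1 y).filter (fun n => n ∈ {n | ∃ j, n ∈ (σ j).2.2}) = ∅ := by
          refine filter_eq_empty_iff.2 fun n hn => ?_
          rintro ⟨j, hj⟩
          have h1 := (hmem j n hj).1
          have h2 := hex j
          rw [mem_Icc] at hn
          omega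
        rw [hempty, card_empty, Nat.cast_zero]
        positivity
  · intro j x h1 h2
    rw [hagA j x (le_of_lt h2), hagP j x (le_of_lt h2)]
    exact (hσ j).2.2.2.2.2.1 x h1
  · intro j
    obtain ⟨x, h1, h2, h3⟩ := (hσ j).2.2.2.2.2.2
    refine ⟨x, h1, ?_⟩
    have h4 := hNX j
    rw [hagA j x (by omega)]
    exact h3

theorem glue2 {φ : ℝ → ℝ} (hφ : Adm φ) (b δ : ℕ → ℝ) (hb : ∀ j, 0 < b j) (hδ : ∀ j, 0 < δ j)
    (N₀ : ℕ) (s : ℕ → ℤ) (hs : ∀ n, s n = 1 ∨ s n = -1) :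
    ∃ (f : ℕ → ℤ) (X : ℕ → ℕ), (∀ n, f n = 1 ∨ f n = -1) ∧ (∀ p : ℕ, p.Prime → p ≤ N₀ → f p = s p) ∧
      PS f ∧ StrictMono X ∧
      (∀ j x : ℕ, X j ≤ x → x < X (j + 1) →
        -(δ j * (Real.sqrt x * φ x)) ≤ sg (kd j) * act (kd j) f x ∧
        sg (kd j) * act (kd j) f x ≤ (b j + δ j) * (Real.sqrt x * φ x) ∧
        |pas (kd j) f x| ≤ δ j * (Real.sqrt x * φ x)) ∧
      ∀ j : ℕ, ∃ x : ℕ, X j ≤ x ∧ (b j - δ j) * (Real.sqrt x * φ x) ≤ sg (kd j) * act (kd j) f x := by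
  classical
  obtain ⟨ω, hPS, hM, hL⟩ := base2
  set S : Finset ℕ := (Icc 1 N₀).filter (fun p => p.Prime ∧ s p ≠ sgn ω p) with hS
  have hSp : ∀ p ∈ S, p.Prime := fun p hp => (mem_filter.1 hp).2.1
  obtain ⟨f, X, h1, h2, h3, h4, h5, h6⟩ := glue_gen hφ (flipS (sgn ω) S) (flipS_sign (sgn_mem ω) S)
    (PS_flipS (sgn_mem ω) hPS S hSp) (sumOp_M.cl _ (sgn_mem ω) hM S) (sumOp_L.cl _ (sgn_mem ω) hL S)
    (ric_flipS _ (ric_base ω) S) b δ hb hδ N₀
  refine ⟨f, X, h1, fun p hp hpN => ?_, h3, h4, h5, h6⟩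
  rw [h2 p hpN]
  unfold flipS
  by_cases hsp : s p = sgn ω p
  · rw [if_neg, hsp]
    rw [hS, mem_filter]
    rintro ⟨-, -, h⟩
    exact h hsp
  · rw [if_pos]
    · rcases hs p with h | h <;> rcases sgn_mem ω p with h' | h' <;> simp_all
    · rw [hS, mem_filter, mem_Icc]
      exact ⟨⟨hp.one_lt.le, hpN⟩, hp, hsp⟩

end Pool.Agent.Helper66.JC
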