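import Pool.Agent.Helper66.MB.Rho
import Pool.Agent.Helper66.JC.Defs

/-!
# Joint class theorem (MP_a499ba_nt): largeness conditions for a general rate
-/

set_option autoImplicit false

namespace Pool.Agent.Helper66.JC

open Finset Filter Pool.Agent.Helper92.GB Pool.Agent.Helper66.MB

variable {φ : ℝ → ℝ}

theorem Adm.smallK (h : Adm φ) (K : ℕ) (hK : K ≤ 8) :
    Tendsto (fun x : ℝ => φ x ^ K / Real.log (Real.log x)) atTop (nhds 0) := by
  refine squeeze_zero' ?_ ?_ h.small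
  · filter_upwards [h.top.eventually_ge_atTop 1, tendsto_loglog.eventually_ge_atTop 1] with x h1 h2
    positivity
  · filter_upwards [h.top.eventually_ge_atTop 1, tendsto_loglog.eventually_ge_atTop 1] with x h1 h2
    have : φ x ^ K ≤ φ x ^ 8 := pow_le_pow_right₀ h1 hK
    gcongr

theorem Adm.rho (h : Adm φ) :
    Tendsto (fun x : ℝ => MB.rho (x ^ ((1 : ℝ) / 5)) * φ x ^ 2) atTop (nhds 0) := by
  have h4 := (h.smallK 4 (by norm_num)).sqrt
  rw [Real.sqrt_zero] at h4
  have h5 := h4.const_mul (Real.sqrt 2)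
  rw [mul_zero] at h5
  refine squeeze_zero' ?_ ?_ h5
  · filter_upwards [eventually_ge_atTop 1] with x hx
    have h1 : (1 : ℝ) ≤ x ^ ((1 : ℝ) / 5) := Real.one_le_rpow hx (by norm_num)
    exact mul_nonneg (rho_pos h1).le (sq_nonneg _)
  · filter_upwards [tendsto_loglog.eventually_ge_atTop 4, Real.tendsto_log_atTop.eventually_ge_atTop 1,
      eventually_ge_atTop 1, h.top.eventually_ge_atTop 1] with x hv hlx hx hφ
    set v := Real.log (Real.log x) with hvdef
    have hlx0 : 0 < Real.log x := by linarith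
    have hlogx : Real.log (x ^ ((1 : ℝ) / 5)) = (1 / 5) * Real.log x := Real.log_rpow (by linarith) _
    have h1 : (1 : ℝ) ≤ x ^ ((1 : ℝ) / 5) := Real.one_le_rpow hx (by norm_num)
    have hlog5 : Real.log 5 ≤ 2 := by
      have h6 : (5 : ℝ) ≤ Real.exp 2 := by
        have h7 := Real.add_one_le_exp (1 : ℝ)
        have h8 : Real.exp 2 = Real.exp 1 * Real.exp 1 := by rw [← Real.exp_add]; norm_num
        have h9 := Real.exp_one_gt_d9
        rw [h8]
        nlinarith
      rw [← Real.log_exp 2]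
      exact Real.log_le_log (by norm_num) h6
    have hg : v / 2 ≤ gq (x ^ ((1 : ℝ) / 5)) := by
      unfold gq
      rw [hlogx]
      have h3 : Real.log (Real.log x / 5) ≤ Real.log (1 + 1 / 5 * Real.log x) :=
        Real.log_le_log (by positivity) (by linarith)
      rw [Real.log_div hlx0.ne' (by norm_num)] at h3
      have : v - Real.log 5 ≤ Real.log (1 + 1 / 5 * Real.log x) := h3
      linarith
    have hv0 : 0 < v := by linarith
    have hrho : MB.rho (x ^ ((1 : ℝ) / 5)) ≤ Real.sqrt 2 / Real.sqrt v := by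
      rw [rho_eq]
      have h4 : Real.sqrt (v / 2) ≤ Real.sqrt (gq (x ^ ((1 : ℝ) / 5))) := Real.sqrt_le_sqrt hg
      have h5 : 0 < Real.sqrt (v / 2) := by positivity
      calc (Real.sqrt (gq (x ^ ((1 : ℝ) / 5))))⁻¹ ≤ (Real.sqrt (v / 2))⁻¹ := inv_anti₀ h5 h4
        _ = Real.sqrt 2 / Real.sqrt v := by
            rw [Real.sqrt_div hv0.le, inv_div]
    have h6 : Real.sqrt (φ x ^ 4 / v) = φ x ^ 2 / Real.sqrt v := by
      rw [Real.sqrt_div (by positivity), show φ x ^ 4 = (φ x ^ 2) ^ 2 by ring,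
        Real.sqrt_sq (by positivity)]
    rw [h6]
    calc MB.rho (x ^ ((1 : ℝ) / 5)) * φ x ^ 2 ≤ Real.sqrt 2 / Real.sqrt v * φ x ^ 2 :=
          mul_le_mul_of_nonneg_right hrho (sq_nonneg _)
      _ = Real.sqrt 2 * (φ x ^ 2 / Real.sqrt v) := by ring

/-- All the largeness conditions on `X`. -/
theorem Adm.large (h : Adm φ) (b δ μ C : ℝ) (N : ℕ) (hb : 0 < b) (hδ : 0 < δ)
    (z₀ : ℝ) (x₀ x₁ : ℝ) : ∀ᶠ X : ℝ in atTop,
      100 ≤ Real.log X ∧ 16 ≤ X ∧ x₀ ≤ X ∧ x₁ ≤ X ∧ 1 ≤ φ X ∧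
      μ * Real.exp (z₀ + 1) < b * φ X ∧
      b * φ X * (3 * Real.log X + 6) < Real.sqrt X ∧
      (12 * (b * φ X)) ^ 2 ≤ Real.log (Real.log X) ∧
      C * MB.rho (X ^ ((1 : ℝ) / 5)) * (12 * (b * φ X)) ^ 2 ≤ δ / 12 ∧
      μ / X ≤ δ / 12 ∧
      μ * ((12 * (b * φ X)) ^ 2) ^ 4 / Real.sqrt X ≤ δ / 12 ∧
      2 * N * Real.log (Real.log X) ≤ Real.log X ∧
      4 / Real.sqrt X ≤ δ / (16 * b) ∧
      2 * Real.log (Real.log X) / Real.sqrt X ≤ δ / (16 * b) ∧
      Real.log (Real.log X) / Real.log X ≤ δ / (16 * b) ∧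
      Real.sqrt X * Real.log X ≤ X ^ ((2 : ℝ) / 3) := by
  have hlog := Real.tendsto_log_atTop
  have hll : Tendsto (fun X : ℝ => Real.log (Real.log X)) atTop atTop := hlog.comp hlog
  have hsq : Tendsto Real.sqrt atTop atTop := Real.tendsto_sqrt_atTop
  have hel := h.top
  have hls : Tendsto (fun X : ℝ => Real.log X / Real.sqrt X) atTop (nhds 0) := by
    have := (isLittleO_log_rpow_atTop (show (0 : ℝ) < 1 / 2 by norm_num)).tendsto_div_nhds_zero
    simpa [Real.sqrt_eq_rpow] using this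
  have hlll : Tendsto (fun X : ℝ => Real.log (Real.log X) / Real.log X) atTop (nhds 0) := by
    have := (isLittleO_log_rpow_atTop (show (0 : ℝ) < 1 by norm_num)).tendsto_div_nhds_zero
    simp only [Real.rpow_one] at this
    exact this.comp hlog
  have hlls : Tendsto (fun X : ℝ => Real.log (Real.log X) / Real.sqrt X) atTop (nhds 0) := by
    have h := hlll.mul hls
    rw [mul_zero] at h
    refine h.congr' ?_
    filter_upwards [hlog.eventually_gt_atTop 0, eventually_gt_atTop 0] with X h1 h2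
    have : Real.sqrt X ≠ 0 := (Real.sqrt_pos.2 h2).ne'
    field_simp
  have h16 : 0 < δ / (16 * b) := by positivity
  have h12 : 0 < δ / 12 := by positivity
  have hlq : Tendsto (fun X : ℝ => Real.log X / X ^ ((1 : ℝ) / 4)) atTop (nhds 0) :=
    (isLittleO_log_rpow_atTop (show (0 : ℝ) < 1 / 4 by norm_num)).tendsto_div_nhds_zero
  have hl6 : Tendsto (fun X : ℝ => Real.log X / X ^ ((1 : ℝ) / 6)) atTop (nhds 0) :=
    (isLittleO_log_rpow_atTop (show (0 : ℝ) < 1 / 6 by norm_num)).tendsto_div_nhds_zero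
  have k7 := (hlq.pow 2).const_mul (b * 9)
  have k8 := (h.smallK 2 (by norm_num)).const_mul ((12 * b) ^ 2)
  have k9 := h.rho.const_mul (C * (12 * b) ^ 2)
  have k10 : Tendsto (fun X : ℝ => μ / X) atTop (nhds 0) := tendsto_const_nhds.div_atTop tendsto_id
  have k11 := ((h.smallK 8 le_rfl).mul hlls).const_mul (μ * (12 * b) ^ 8)
  have k12 := hlll.const_mul (2 * (N : ℝ))
  have k13 : Tendsto (fun X : ℝ => 4 / Real.sqrt X) atTop (nhds 0) := tendsto_const_nhds.div_atTop hsq
  have k14 := hlls.const_mul 2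
  simp only [mul_zero, ne_eq, OfNat.ofNat_ne_zero, not_false_eq_true, zero_pow] at k7 k8 k9 k11 k12 k14
  filter_upwards [hlog.eventually_ge_atTop 100, eventually_ge_atTop 16, eventually_ge_atTop x₀,
    eventually_ge_atTop x₁, hel.eventually_ge_atTop 1,
    (hel.const_mul_atTop hb).eventually_gt_atTop (μ * Real.exp (z₀ + 1)),
    k7.eventually (gt_mem_nhds one_pos), k8.eventually (gt_mem_nhds one_pos),
    k9.eventually (gt_mem_nhds h12), k10.eventually (gt_mem_nhds h12),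
    k11.eventually (gt_mem_nhds h12), k12.eventually (gt_mem_nhds one_pos),
    k13.eventually (gt_mem_nhds h16), k14.eventually (gt_mem_nhds h16),
    hlll.eventually (gt_mem_nhds h16), hl6.eventually (gt_mem_nhds one_pos),
    hll.eventually_ge_atTop 1, (h.smallK 1 (by norm_num)).eventually (gt_mem_nhds one_pos)]
    with X a1 a2 a3 a4 a5 a6 a7 a8 a9 a10 a11 a12 a13 a14 a15 a16 a17 a18
  have hX0 : 0 < X := by linarith
  have hs0 : 0 < Real.sqrt X := Real.sqrt_pos.2 hX0
  have hl0 : 0 < Real.log X := by linarith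
  have hll0 : 0 < Real.log (Real.log X) := by linarith
  refine ⟨a1, a2, a3, a4, a5, a6, ?_, ?_, ?_, a10.le, ?_, ?_, a13.le, ?_, a15.le, ?_⟩
  · rw [pow_one, div_lt_one hll0] at a18
    have e1 : Real.log (Real.log X) ≤ Real.log X := by
      have := Real.log_le_sub_one_of_pos hl0
      linarith
    have e2 : φ X ≤ Real.log X := a18.le.trans e1
    have e3 : 3 * Real.log X + 6 ≤ 9 * Real.log X := by linarith
    have e4 : (X ^ ((1 : ℝ) / 4)) ^ 2 = Real.sqrt X := by
      rw [Real.sqrt_eq_rpow, ← Real.rpow_natCast, ← Real.rpow_mul hX0.le]; norm_num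
    rw [div_pow, e4, ← mul_div_assoc, div_lt_one hs0] at a7
    calc b * φ X * (3 * Real.log X + 6) ≤ b * Real.log X * (9 * Real.log X) := by gcongr
      _ = b * 9 * Real.log X ^ 2 := by ring
      _ < Real.sqrt X := a7
  · rw [← mul_div_assoc, div_lt_one hll0] at a8
    calc (12 * (b * φ X)) ^ 2 = (12 * b) ^ 2 * φ X ^ 2 := by ring
      _ ≤ _ := a8.le
  · calc C * MB.rho (X ^ ((1 : ℝ) / 5)) * (12 * (b * φ X)) ^ 2
        = C * (12 * b) ^ 2 * (MB.rho (X ^ ((1 : ℝ) / 5)) * φ X ^ 2) := by ring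
      _ ≤ _ := a9.le
  · calc μ * ((12 * (b * φ X)) ^ 2) ^ 4 / Real.sqrt X
        = μ * (12 * b) ^ 8 * (φ X ^ 8 / Real.log (Real.log X) * (Real.log (Real.log X) / Real.sqrt X)) := by
          field_simp
      _ ≤ _ := a11.le
  · rw [← mul_div_assoc, div_lt_one hl0] at a12
    exact a12.le
  · rw [mul_div_assoc]; exact a14.le
  · rw [div_lt_one (by positivity)] at a16
    calc Real.sqrt X * Real.log X ≤ X ^ ((1 : ℝ) / 2) * X ^ ((1 : ℝ) / 6) := by
          rw [Real.sqrt_eq_rpow]; gcongr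
      _ = X ^ ((2 : ℝ) / 3) := by rw [← Real.rpow_add hX0]; norm_num

end Pool.Agent.Helper66.JC
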