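import Pool.Agent.Helper66.JC.Glue

/-!
# Joint class theorem (MP_a499ba_nt): the limits
-/

set_option autoImplicit false

namespace Pool.Agent.Helper66.JC

open Finset Filter Pool.Agent.Helper92.GB Pool.Agent.Helper66.MB

/-- `a` and `b` are the two values for `Mf`, `c` and `d` those for `Lf`. -/
theorem main4 {φ : ℝ → ℝ} (hφ : Adm φ) (a b c d : EReal) (ha : 0 ≤ a) (hb : 0 ≤ b) (hc : 0 ≤ c) (hd : 0 ≤ d)
    (N₀ : ℕ) (s : ℕ → ℤ) (hs : ∀ n, s n = 1 ∨ s n = -1) :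
    ∃ f : ℕ → ℤ, (∀ n, f n = 1 ∨ f n = -1) ∧ (∀ p : ℕ, p.Prime → p ≤ N₀ → f p = s p) ∧ PS f ∧
      liminf (fun x : ℝ => ((Mf f ⌊x⌋₊ / (Real.sqrt x * φ x) : ℝ) : EReal)) atTop = -a ∧
      limsup (fun x : ℝ => ((Mf f ⌊x⌋₊ / (Real.sqrt x * φ x) : ℝ) : EReal)) atTop = b ∧
      liminf (fun x : ℝ => ((GL.Lf f ⌊x⌋₊ / (Real.sqrt x * φ x) : ℝ) : EReal)) atTop = -c ∧
      limsup (fun x : ℝ => ((GL.Lf f ⌊x⌋₊ / (Real.sqrt x * φ x) : ℝ) : EReal)) atTop = d := sorry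

end Pool.Agent.Helper66.JC
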