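import Pool.Agent.Helper66.MB.Stage
import Pool.Agent.Helper66.JC.UpP
import Pool.Agent.Helper66.JC.Large

/-!
# Joint class theorem (MP_a499ba_nt): the main stage

Starting from a function with a peak (`Peak`), sign changes from `-1` to `1` at `c` primes just above `X` multiply all extremes by
`Az (2 c / √X)`, which is chosen close to `b φ(X) / μ`.
-/

set_option autoImplicit false

namespace Pool.Agent.Helper66.JC

open Finset Pool.Agent.Helper92.GB Pool.Agent.Helper66.MB Filter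

theorem main_stage {φ : ℝ → ℝ} (hφ : Adm φ) {Φ Ψ : (ℕ → ℤ) → ℕ → ℝ} (hΦ : SumOp0 Φ) (hΨ : SumOp0 Ψ)
    (f : ℕ → ℤ) (hf : ∀ n, f n = 1 ∨ f n = -1) (hCΦ : ClG (Φ f)) (hCΨ : ClG (Ψ f)) (hR : Ric f)
    (s : ℝ) (hs : s = 1 ∨ s = -1) (ε μ : ℝ) (hε0 : 0 ≤ ε) (hε1 : ε ≤ 1) (N : ℕ)
    (hP : Peak (Φ f) (Ψ f) s ε μ N) (b δ : ℝ) (hb : 0 < b) (hδ : 0 < δ) (hδb : δ ≤ b) (X₀ : ℕ) :
    ∃ (X N' : ℕ) (R : Finset ℕ), X₀ ≤ X ∧ X ≤ N' ∧ (∀ p ∈ R, p.Prime ∧ X < p ∧ p ≤ 2 * X) ∧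
      (R.card : ℝ) ≤ Real.sqrt X * Real.log X ∧
      (∀ x : ℕ, X ≤ x → -((ε * b + δ) * (Real.sqrt x * φ x)) ≤ s * Φ (flipS f R) x ∧
        s * Φ (flipS f R) x ≤ (b + δ) * (Real.sqrt x * φ x) ∧
        |Ψ (flipS f R) x| ≤ (ε * b + δ) * (Real.sqrt x * φ x)) ∧
      ∃ x : ℕ, X ≤ x ∧ x ≤ N' ∧ (b - δ) * (Real.sqrt x * φ x) ≤ s * Φ (flipS f R) x := by
  obtain ⟨hN, hμ, hsN, hup, hlo, hΨ1⟩ := hP
  have hμ0 : 0 ≤ μ := by linarith
  have hs1 : |s| = 1 := by rcases hs with h | h <;> rw [h] <;> norm_num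
  -- constants
  obtain ⟨C₁, hC₁⟩ := hCΦ
  obtain ⟨C₂, hC₂⟩ := hCΨ
  set C := max (max C₁ C₂) 1 with hCdef
  have hC1 : 0 < C := by
    have := le_max_right (max C₁ C₂) 1
    linarith
  have hC₁' : ∀ y : ℕ, 1 ≤ y → |Φ f y| ≤ C * Real.sqrt y * rho y := by
    intro y hy
    have h1 : C₁ ≤ C := (le_max_left _ _).trans (le_max_left _ _)
    have h2 := (rho_pos (x := (y : ℝ)) (by exact_mod_cast hy)).le
    exact (hC₁ y hy).trans (by gcongr)
  have hC₂' : ∀ y : ℕ, 1 ≤ y → |Ψ f y| ≤ C * Real.sqrt y * rho y := by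
    intro y hy
    have h1 : C₂ ≤ C := (le_max_right _ _).trans (le_max_left _ _)
    have h2 := (rho_pos (x := (y : ℝ)) (by exact_mod_cast hy)).le
    exact (hC₂ y hy).trans (by gcongr)
  have hmaxΦ : ∀ x : ℕ, |Φ f x| ≤ μ * Real.sqrt x := by
    intro x
    have h1 : |Φ f x| = |s * Φ f x| := by rw [abs_mul, hs1, one_mul]
    rw [h1, abs_le]
    have h2 : ε * μ * Real.sqrt x ≤ μ * Real.sqrt x := by
      have : ε * μ ≤ μ := mul_le_of_le_one_left hμ0 hε1
      exact mul_le_mul_of_nonneg_right this (Real.sqrt_nonneg _)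
    exact ⟨by linarith [hlo x], hup x⟩
  have hmaxΨ : ∀ x : ℕ, |Ψ f x| ≤ μ * Real.sqrt x := by
    intro x
    refine (hΨ1 x).trans ?_
    have : ε * μ ≤ μ := mul_le_of_le_one_left hμ0 hε1
    exact mul_le_mul_of_nonneg_right this (Real.sqrt_nonneg _)
  obtain ⟨x₀, hx₀⟩ := hφ.mono
  have hδ1 : 0 < δ / (2 * b) := by positivity
  obtain ⟨x₁, hx₁⟩ := hφ.slow (δ / (2 * b)) hδ1
  set z₀ : ℝ := max 3 (16 * b / δ) with hz₀
  have hz₀3 : 3 ≤ z₀ := le_max_left _ _
  have hz₀b : 16 * b / δ ≤ z₀ := le_max_right _ _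
  obtain ⟨X₂, hX₂⟩ := eventually_atTop.1 (hφ.large b δ μ C N hb hδ z₀ x₀ x₁)
  obtain ⟨Y₀, hY₀⟩ := hR 1 one_pos (-1) (Or.inr rfl)
  obtain ⟨X, hXY, -, hBX⟩ := hY₀ (max (max X₂ Y₀) X₀) ((le_max_right _ _).trans (le_max_left _ _))
  have hXX₂ : X₂ ≤ (X : ℝ) := (le_max_left _ _).trans ((le_max_left _ _).trans hXY)
  have hX₀X : X₀ ≤ X := by exact_mod_cast (le_max_right _ _).trans hXY
  obtain ⟨a1, a2, a3, a4, a5, a6, a7, a8, a9, a10, a11, a12, a13, a14, a15, a16⟩ := hX₂ X hXX₂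
  set l := φ (X : ℝ) with hl
  set L := Real.log (X : ℝ) with hL
  have hX0 : (0 : ℝ) < X := by linarith
  have hXn : 16 ≤ X := by exact_mod_cast a2
  have hX1 : 1 ≤ X := by omega
  have hs0 : 0 < Real.sqrt X := Real.sqrt_pos.2 hX0
  have hs4 : 4 ≤ Real.sqrt X := by
    rw [show (4 : ℝ) = Real.sqrt 16 by rw [show (16 : ℝ) = 4 ^ 2 by norm_num]; simp]
    exact Real.sqrt_le_sqrt a2
  have hL0 : 0 < L := by linarith
  obtain ⟨c, hc1, hc2, hc3, hc4, hc5⟩ := choose_c b μ z₀ l X hμ (by linarith) (by linarith) a6 a7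
  set z : ℝ := 2 * c / Real.sqrt X with hz
  have hz3 : 3 ≤ z := hz₀3.trans hc1
  have hz0 : 0 ≤ z := by linarith
  have hcz : z * Real.sqrt X = 2 * c := by rw [hz]; field_simp
  have hcpos : 0 < c := by
    rcases Nat.eq_zero_or_pos c with h | h
    · exfalso; rw [hz, h] at hz3; simp at hz3; linarith
    · exact h
  have hc0 : (0 : ℝ) < c := by exact_mod_cast hcpos
  have hccard : (c : ℝ) ≤ Real.sqrt X * L := by
    have : 2 * (c : ℝ) ≤ L * Real.sqrt X := by rw [← hcz]; gcongr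
    exact aux5 hc0.le hL0.le this
  -- the set of primes
  have hcard : c ≤ ((Ioc X (X + ⌊(X : ℝ) / Real.log X⌋₊)).filter (fun p => p.Prime ∧ f p = -1)).card := by
    have : (c : ℝ) ≤ (((Ioc X (X + ⌊(X : ℝ) / Real.log X⌋₊)).filter
        (fun p => p.Prime ∧ f p = -1)).card : ℝ) := hccard.trans (a16.trans hBX)
    exact_mod_cast this
  obtain ⟨R, hRsub, hRcard⟩ := Finset.exists_subset_card_eq hcard
  have hRp : ∀ p ∈ R, p.Prime ∧ X < p ∧ f p = -1 := by
    intro p hp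
    have h1 := hRsub hp
    rw [mem_filter, mem_Ioc] at h1
    exact ⟨h1.2.1, h1.1.1, h1.2.2⟩
  have hfl : ((⌊(X : ℝ) / Real.log X⌋₊ : ℕ) : ℝ) ≤ X / L := Nat.floor_le (by positivity)
  have hR' : ∀ p ∈ R, X < p ∧ (p : ℝ) ≤ X + X / Real.log X := by
    intro p hp
    have h1 := hRsub hp
    rw [mem_filter, mem_Ioc] at h1
    refine ⟨h1.1.1, ?_⟩
    have h2 : (p : ℝ) ≤ ((X + ⌊(X : ℝ) / Real.log X⌋₊ : ℕ) : ℝ) := by exact_mod_cast h1.1.2
    push_cast at h2
    linarith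
  have hR2 : ∀ p ∈ R, p ≤ 2 * X := by
    intro p hp
    have h1 := (hR' p hp).2
    have h2 : (X : ℝ) / L ≤ X := by
      rw [div_le_iff₀ hL0]; exact aux6 hX0.le (by linarith)
    have h3 : (p : ℝ) ≤ ((2 * X : ℕ) : ℝ) := by push_cast; linarith
    exact_mod_cast h3
  -- the small parameter of the tail
  set τ := C * rho ((X : ℝ) ^ ((1 : ℝ) / 5)) with hτ
  have hX5 : 1 ≤ (X : ℝ) ^ ((1 : ℝ) / 5) := Real.one_le_rpow (by linarith) (by norm_num)
  have hτ0 : 0 ≤ τ := mul_nonneg hC1.le (rho_pos hX5).le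
  have h2gen : ∀ F : ℕ → ℝ, (∀ y : ℕ, 1 ≤ y → |F y| ≤ C * Real.sqrt y * rho y) →
      ∀ y : ℕ, X ≤ y ^ 5 → |F y| ≤ τ * Real.sqrt y := by
    intro F hF y hy
    have hy1 : 1 ≤ y := by
      rcases Nat.eq_zero_or_pos y with h | h
      · subst h; simp at hy; omega
      · exact h
    have hy2 : (X : ℝ) ^ ((1 : ℝ) / 5) ≤ y := by
      have h3 : (X : ℝ) ≤ (y : ℝ) ^ 5 := by exact_mod_cast hy
      calc (X : ℝ) ^ ((1 : ℝ) / 5) ≤ ((y : ℝ) ^ 5) ^ ((1 : ℝ) / 5) := by gcongr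
        _ = y := by
          rw [← Real.rpow_natCast, ← Real.rpow_mul (by positivity)]; norm_num
    have h3 := rho_anti hX5 hy2
    calc |F y| ≤ C * Real.sqrt y * rho y := hF y hy1
      _ ≤ C * Real.sqrt y * rho ((X : ℝ) ^ ((1 : ℝ) / 5)) := by gcongr
      _ = τ * Real.sqrt y := by rw [hτ]; ring
  -- error bounds
  have hzdef : 2 * (R.card : ℝ) / Real.sqrt X = z := by rw [hRcard]
  have e1 : τ * Real.exp z ≤ δ / 12 := (mul_le_mul_of_nonneg_left hc5 hτ0).trans a9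
  have e3 : μ * (2 * R.card / X) * Real.exp (5 * R.card / Real.sqrt X) ≤ δ / 12 := by
    have h3 : 2 * (R.card : ℝ) / X = z / Real.sqrt X := by
      rw [hRcard, hz]
      have : Real.sqrt X * Real.sqrt X = X := Real.mul_self_sqrt hX0.le
      field_simp
      rw [sq, this]
    have h4 : 5 * (R.card : ℝ) / Real.sqrt X = 5 / 2 * z := by
      rw [hRcard, hz]; ring
    have h5 : z ≤ Real.exp z := by
      have := Real.add_one_le_exp z
      linarith
    have h6 : z * Real.exp (5 / 2 * z) ≤ (Real.exp z) ^ 4 := by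
      calc z * Real.exp (5 / 2 * z) ≤ Real.exp z * Real.exp (3 * z) := by
            gcongr; linarith
        _ = (Real.exp z) ^ 4 := by
            rw [← Real.exp_add, ← Real.exp_nat_mul]; congr 1; push_cast; ring
    rw [h3, h4]
    calc μ * (z / Real.sqrt X) * Real.exp (5 / 2 * z) = μ * (z * Real.exp (5 / 2 * z)) / Real.sqrt X := by ring
      _ ≤ μ * (Real.exp z) ^ 4 / Real.sqrt X := by gcongr
      _ ≤ μ * ((12 * (b * l)) ^ 2) ^ 4 / Real.sqrt X := by gcongr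
      _ ≤ δ / 12 := a11
  have hRX : ∀ p ∈ R, p.Prime ∧ X < p := fun p hp => ⟨(hRp p hp).1, (hRp p hp).2.1⟩
  have hRm : ∀ p ∈ R, f p = -1 := fun p hp => (hRp p hp).2.2
  have hflipΦ : ∀ x : ℕ, |Φ (flipS f R) x - mainP (Φ f) R x| ≤ δ / 12 * Real.sqrt x := by
    intro x
    have h3 := flip_mainG0 hΦ f hf R X hXn hRX μ hmaxΦ x
    rw [mainG_eq (Φ f) f R hRm x] at h3
    refine h3.trans ?_
    gcongr
  have hflipΨ : ∀ x : ℕ, |Ψ (flipS f R) x - mainP (Ψ f) R x| ≤ δ / 12 * Real.sqrt x := by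
    intro x
    have h3 := flip_mainG0 hΨ f hf R X hXn hRX μ hmaxΨ x
    rw [mainG_eq (Ψ f) f R hRm x] at h3
    refine h3.trans ?_
    gcongr
  have hzl : z ≤ Real.log (Real.log X) - 1 := by
    have h3 : z + 1 ≤ Real.exp z := Real.add_one_le_exp z
    have h4 := hc5.trans a8
    linarith
  have hzL : 2 * (R.card : ℝ) / Real.sqrt X ≤ Real.log X := by rw [hzdef]; exact hc2
  have hAz0 : 0 ≤ Az z := by
    have := Az_max hz0 0
    simp at this
    linarith
  -- signed function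
  set F : ℕ → ℝ := fun y => s * Φ f y with hF
  have hF0 : F 0 = 0 := by rw [hF]; simp only; rw [hΦ.zero, mul_zero]
  have hFabs : ∀ y, |F y| = |Φ f y| := by
    intro y; rw [hF]; simp only; rw [abs_mul, hs1, one_mul]
  have hF1 : ∀ y : ℕ, |F y| ≤ μ * Real.sqrt y := fun y => by rw [hFabs]; exact hmaxΦ y
  have hF2 : ∀ y : ℕ, X ≤ y ^ 5 → |F y| ≤ τ * Real.sqrt y := fun y hy => by
    rw [hFabs]; exact h2gen _ hC₁' y hy
  have hFm : ∀ x, mainP F R x = s * mainP (Φ f) R x := by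
    intro x
    unfold mainP
    rw [mul_sum]
    refine sum_congr rfl fun T _ => ?_
    rw [hF]
    ring
  have hflipF : ∀ x : ℕ, |s * Φ (flipS f R) x - mainP F R x| ≤ δ / 12 * Real.sqrt x := by
    intro x
    rw [hFm, ← mul_sub, abs_mul, hs1, one_mul]
    exact hflipΦ x
  -- upper bounds of the main parts
  have hεμ : 0 ≤ ε * μ := mul_nonneg hε0 hμ0
  have u1 : ∀ x, mainP F R x ≤ Real.sqrt x * (μ * Az z + τ * Real.exp z + μ / X) := by
    intro x
    have := upP F hF0 R X a1 hR' μ τ μ hμ0 hup hF1 hF2 hzL x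
    rwa [hzdef] at this
  have neg1 : ∀ G : ℕ → ℝ, G 0 = 0 → (∀ y : ℕ, |G y| ≤ μ * Real.sqrt y) →
      (∀ y : ℕ, X ≤ y ^ 5 → |G y| ≤ τ * Real.sqrt y) → (∀ y : ℕ, G y ≤ ε * μ * Real.sqrt y) →
      ∀ x, mainP G R x ≤ Real.sqrt x * (ε * μ * Az z + τ * Real.exp z + μ / X) := by
    intro G h0 h1 h2 h3 x
    have := upP G h0 R X a1 hR' μ τ (ε * μ) hεμ h3 h1 h2 hzL x
    rwa [hzdef] at this
  have u2 : ∀ x, -mainP F R x ≤ Real.sqrt x * (ε * μ * Az z + τ * Real.exp z + μ / X) := by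
    intro x
    rw [← mainP_neg]
    refine neg1 _ (by rw [hF0, neg_zero]) (fun y => by rw [abs_neg]; exact hF1 y)
      (fun y hy => by rw [abs_neg]; exact hF2 y hy) (fun y => ?_) x
    have := hlo y
    simp only [hF]
    linarith
  have u3 : ∀ x, mainP (Ψ f) R x ≤ Real.sqrt x * (ε * μ * Az z + τ * Real.exp z + μ / X) :=
    neg1 _ (hΨ.zero f) hmaxΨ (h2gen _ hC₂') (fun y => (le_abs_self _).trans (hΨ1 y))
  have u4 : ∀ x, -mainP (Ψ f) R x ≤ Real.sqrt x * (ε * μ * Az z + τ * Real.exp z + μ / X) := by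
    intro x
    rw [← mainP_neg]
    refine neg1 _ (by rw [hΨ.zero, neg_zero]) (fun y => by rw [abs_neg]; exact hmaxΨ y)
      (fun y hy => by rw [abs_neg]; exact h2gen _ hC₂' y hy) (fun y => ?_) x
    exact (neg_le_abs _).trans (hΨ1 y)
  have l1 : 1 ≤ l := a5
  have hmono : ∀ x : ℕ, X ≤ x → l ≤ φ x := fun x hx => hx₀ X x a3 (by exact_mod_cast hx)
  have fin1 : ∀ x : ℕ, X ≤ x → Real.sqrt x * (μ * Az z + τ * Real.exp z + μ / X) + δ / 12 * Real.sqrt x ≤
      (b + δ) * (Real.sqrt x * φ x) := by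
    intro x hx
    have hsx : 0 ≤ Real.sqrt x := Real.sqrt_nonneg _
    have h6 := hmono x hx
    calc Real.sqrt x * (μ * Az z + τ * Real.exp z + μ / X) + δ / 12 * Real.sqrt x
        ≤ Real.sqrt x * (b * l + δ / 12 + δ / 12) + δ / 12 * Real.sqrt x := by gcongr
      _ = Real.sqrt x * (b * l + δ / 4 * 1) := by ring
      _ ≤ Real.sqrt x * (b * l + δ / 4 * l) := by gcongr
      _ ≤ Real.sqrt x * (b * l + δ * l) := by gcongr; linarith
      _ = (b + δ) * (Real.sqrt x * l) := by ring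
      _ ≤ (b + δ) * (Real.sqrt x * φ x) := by gcongr
  have fin2 : ∀ x : ℕ, X ≤ x → Real.sqrt x * (ε * μ * Az z + τ * Real.exp z + μ / X) + δ / 12 * Real.sqrt x ≤
      (ε * b + δ) * (Real.sqrt x * φ x) := by
    intro x hx
    have hsx : 0 ≤ Real.sqrt x := Real.sqrt_nonneg _
    have h6 := hmono x hx
    have h7 : ε * μ * Az z ≤ ε * b * l := by
      have := mul_le_mul_of_nonneg_left hc3 hε0
      calc ε * μ * Az z = ε * (μ * Az z) := by ring
        _ ≤ ε * (b * l) := this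
        _ = ε * b * l := by ring
    calc Real.sqrt x * (ε * μ * Az z + τ * Real.exp z + μ / X) + δ / 12 * Real.sqrt x
        ≤ Real.sqrt x * (ε * b * l + δ / 12 + δ / 12) + δ / 12 * Real.sqrt x := by gcongr
      _ = Real.sqrt x * (ε * b * l + δ / 4 * 1) := by ring
      _ ≤ Real.sqrt x * (ε * b * l + δ / 4 * l) := by gcongr
      _ ≤ Real.sqrt x * (ε * b * l + δ * l) := by gcongr; linarith
      _ = (ε * b + δ) * (Real.sqrt x * l) := by ring
      _ ≤ (ε * b + δ) * (Real.sqrt x * φ x) := by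
          have : 0 ≤ ε * b := mul_nonneg hε0 hb.le
          gcongr
  -- the point
  set m := ⌊z⌋₊ with hm
  have hm3 : 3 ≤ m := Nat.le_floor (by exact_mod_cast hz3)
  have hmz : (m : ℝ) ≤ z := Nat.floor_le hz0
  have point : ∃ x : ℕ, X ≤ x ∧ x ≤ X ^ (m + 1) ∧
      (b - δ) * (Real.sqrt x * φ x) ≤ s * Φ (flipS f R) x := by
    have hrN : 2 * (m : ℝ) * N ≤ Real.log X := by
      calc 2 * (m : ℝ) * N = 2 * N * m := by ring
        _ ≤ 2 * N * Real.log (Real.log X) := by gcongr; linarith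
        _ ≤ Real.log X := a12
    obtain ⟨x, hx1, hx2, hx3, hx4⟩ := loP F hF0 R X a1 hR' τ hτ0 hF2 N m hN (by omega) hrN
    have hXx : X ≤ x := (Nat.le_self_pow (by omega) X).trans hx1
    have hsx : 0 ≤ Real.sqrt x := Real.sqrt_nonneg _
    rw [hzdef] at hx4
    refine ⟨x, hXx, hx2, ?_⟩
    have hrc : m ≤ c := by
      have h3 : (m : ℝ) ≤ c := by
        have h4 : z * 4 ≤ 2 * c := by rw [← hcz]; gcongr
        linarith
      exact_mod_cast h3
    have hr2c : (m : ℝ) ^ 2 / c ≤ δ / (16 * b) := by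
      have h3 : (m : ℝ) ^ 2 / c ≤ 2 * Real.log (Real.log X) / Real.sqrt X := by
        rw [div_le_div_iff₀ hc0 hs0]
        have h4 : (m : ℝ) ^ 2 * Real.sqrt X ≤ m * (z * Real.sqrt X) := by
          rw [sq, mul_assoc]; gcongr
        rw [hcz] at h4
        have h5 : (m : ℝ) ≤ Real.log (Real.log X) := by linarith
        exact aux9 (z := z) (Nat.cast_nonneg m) hc0.le h4 h5
      exact h3.trans a14
    have hεε : δ / (16 * b) ≤ 1 / 16 := by
      rw [div_le_div_iff₀ (by positivity) (by norm_num)]; linarith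
    have hεε0 : 0 < δ / (16 * b) := by positivity
    have hrL : (m : ℝ) / L ≤ δ / (16 * b) := by
      refine le_trans ?_ a15
      gcongr
      linarith
    have hrL' : (m : ℝ) ≤ L := by
      rw [← div_le_one hL0]
      linarith
    have hMN : |F N| = μ * Real.sqrt N := by
      rw [show F N = μ * Real.sqrt N from hsN, abs_of_nonneg (by positivity)]
    have htl := term_lower c m X L z (Az z) μ (F N) N (Real.sqrt x) hX0 hcpos hrc hz
      hAz0 (le_refl _) hμ0 hMN hL0 hrL' (by linarith) hx3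
    have habs : |(-2 : ℝ) ^ m * (c.choose m) * F N| = 2 ^ m * (c.choose m) * F N := by
      rw [abs_mul, abs_mul, abs_pow, abs_neg, abs_two, Nat.abs_cast, hMN,
        show F N = μ * Real.sqrt N from hsN]
    rw [habs] at htl
    set e := δ / (16 * b) with hedef
    have hbe : b * e = δ / 16 := by rw [hedef]; field_simp
    have k1 : 1 - 4 * e ≤ (1 - e) * (1 - e) * (1 - e) * (1 - e) := aux4 hεε0.le (by linarith)
    have k2 : b * l * (1 - 4 * e) ≤ μ * Az z * (1 - (m : ℝ) ^ 2 / c) * (1 - m / L) := by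
      calc b * l * (1 - 4 * e) ≤ b * l * ((1 - e) * (1 - e) * (1 - e) * (1 - e)) := by gcongr
        _ = (b * l * (1 - e)) * (1 - e) * (1 - e) * (1 - e) := by ring
        _ ≤ (b * l * (1 - 4 / Real.sqrt X)) * 1 * (1 - (m : ℝ) ^ 2 / c) * (1 - m / L) := by
            have q1 : 0 ≤ 1 - e := by linarith
            have q2 : 0 ≤ 1 - 4 / Real.sqrt X := by linarith
            have q3 : 0 ≤ 1 - (m : ℝ) ^ 2 / c := by linarith
            have q4 : 0 ≤ 1 - (m : ℝ) / L := by linarith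
            gcongr
            linarith
        _ ≤ (μ * Az z) * 1 * (1 - (m : ℝ) ^ 2 / c) * (1 - m / L) := by
            have q3 : 0 ≤ 1 - (m : ℝ) ^ 2 / c := by linarith
            have q4 : 0 ≤ 1 - (m : ℝ) / L := by linarith
            gcongr
        _ = _ := by ring
    have k3 : φ x ≤ (1 + δ / (2 * b)) * l := by
      apply hx₁ X x a4 (by exact_mod_cast hXx)
      have h3 : (x : ℝ) ≤ (X : ℝ) ^ (m + 1) := by exact_mod_cast hx2
      refine h3.trans ?_
      rw [← Real.rpow_natCast]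
      apply Real.rpow_le_rpow_of_exponent_le (by linarith)
      push_cast
      linarith
    have k4 : (b - δ) * φ x ≤ (b - δ / 2) * l := by
      have h3 : (b - δ) * φ x ≤ (b - δ) * ((1 + δ / (2 * b)) * l) := by
        apply mul_le_mul_of_nonneg_left k3; linarith
      refine h3.trans ?_
      rw [← mul_assoc]
      gcongr
      have h4 : (b - δ) * (1 + δ / (2 * b)) = b - δ + δ / 2 - δ ^ 2 / (2 * b) := by
        field_simp
        ring
      rw [h4]
      have : 0 ≤ δ ^ 2 / (2 * b) := by positivity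
      linarith
    have k5 : (b - δ) * φ x + δ / 6 * l ≤ b * l * (1 - 4 * e) := by
      have h3 : b * l * (1 - 4 * e) = (b - δ / 4) * l := by
        have : b * l * (1 - 4 * e) = b * l - 4 * (b * e) * l := by ring
        rw [this, hbe]; ring
      exact aux8 (by linarith) hδ.le k4 h3
    have k6 : (b - δ) * (Real.sqrt x * φ x) + δ / 6 * (Real.sqrt x * l) ≤ 2 ^ m * (c.choose m) * F N := by
      calc (b - δ) * (Real.sqrt x * φ x) + δ / 6 * (Real.sqrt x * l)
          = ((b - δ) * φ x + δ / 6 * l) * Real.sqrt x := by ring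
        _ ≤ (b * l * (1 - 4 * e)) * Real.sqrt x := by gcongr
        _ ≤ (μ * Az z * (1 - (m : ℝ) ^ 2 / c) * (1 - m / L)) * Real.sqrt x := by gcongr
        _ ≤ _ := htl
    have k7 := (abs_le.1 hx4).1
    have k8 := (abs_le.1 (hflipF x)).1
    rw [hRcard] at k7
    have k9 : τ * Real.exp z * Real.sqrt x ≤ δ / 12 * Real.sqrt x := by gcongr
    have k10 : δ / 6 * Real.sqrt x ≤ δ / 6 * (Real.sqrt x * l) :=
      mul_le_mul_of_nonneg_left (le_mul_of_one_le_right hsx l1) (by positivity)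
    linarith
  refine ⟨X, X ^ (m + 1), R, hX₀X, Nat.le_self_pow (by omega) X,
    fun p hp => ⟨(hRp p hp).1, (hRp p hp).2.1, hR2 p hp⟩, by rw [hRcard]; exact hccard, ?_, point⟩
  intro x hx
  have g1 := abs_le.1 (hflipF x)
  have g2 := abs_le.1 (hflipΨ x)
  have f1 := fin1 x hx
  have f2 := fin2 x hx
  have v1 := u1 x
  have v2 := u2 x
  have v3 := u3 x
  have v4 := u4 x
  refine ⟨by linarith, by linarith, ?_⟩
  rw [abs_le]
  constructor
  · linarith
  · linarith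

end Pool.Agent.Helper66.JC
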