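import Pool.Agent.Helper66.JC.Defs

/-!
# Joint class theorem (MP_a499ba_nt): the two summatory functions
-/

set_option autoImplicit false

namespace Pool.Agent.Helper66.JC

open Finset Filter Pool.Agent.Helper92.GB Pool.Agent.Helper66.MB

theorem ext_one_le (f : ℕ → ℤ) (hf : ∀ n, f n = 1 ∨ f n = -1) (n : ℕ) : |((ext f n : ℤ) : ℝ)| ≤ 1 := by
  unfold Helper92.GB.ext
  split_ifs with h
  · rw [Int.cast_prod, Finset.abs_prod]
    refine Finset.prod_le_one (fun p _ => abs_nonneg _) fun p _ => ?_
    rw [abs_sign (hf p)]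
  · simp

theorem sumOp_M : SumOp Mf where
  zero := Mf_zero
  one f := by simp [Mf, Helper92.GB.ext]
  congr f g x h := by
    unfold Mf
    refine sum_congr rfl fun n hn => ?_
    rw [ext_congrF fun p hp => h p (Nat.prime_of_mem_primeFactors hp)
      ((Nat.le_of_mem_primeFactors hp).trans (mem_Icc.1 hn).2)]
  flip f p hp hf x := Mf_flip f p hp hf x
  jump f hf n := by
    have h : Mf f (n + 1) = Mf f n + ext f (n + 1) := by
      unfold Mf
      rw [Finset.sum_Icc_succ_top (by omega)]
    rw [h, add_sub_cancel_left]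
    exact ext_one_le f hf (n + 1)
  cl f hf h R := MB.Cl_flipS f hf h R

theorem sumOp_L : SumOp GL.Lf where
  zero := GL.Lf_zero
  one := GL.Lf_one
  congr f g x h := by
    unfold GL.Lf
    refine sum_congr rfl fun n hn => ?_
    rw [GL.cm_congr fun p hp => h p (Nat.prime_of_mem_primeFactors hp)
      ((Nat.le_of_mem_primeFactors hp).trans (mem_Icc.1 hn).2)]
  flip f p hp hf x := GL.Lf_flip f p hp hf x
  jump f hf n := by
    have h : GL.Lf f (n + 1) = GL.Lf f n + GL.cm f (n + 1) := by
      unfold GL.Lf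
      rw [Finset.sum_Icc_succ_top (by omega)]
    rw [h, add_sub_cancel_left]
    exact (abs_sign (GL.cm_sign f hf (n + 1))).le
  cl f hf h R := GL.Cl_flipS f hf h R

end Pool.Agent.Helper66.JC
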