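import Pool.Agent.Helper66.JC.SumOp
import Pool.Agent.Helper66.JC.FlipG
import Pool.Agent.Helper96.QC.Pre2

/-!
# Joint class theorem (MP_a499ba_nt): the preliminary stage for an arbitrary direction (proof in `Pool.Agent.Helper96.QC`)
-/

set_option autoImplicit false

namespace Pool.Agent.Helper66.JC

open Finset Filter Pool.Agent.Helper92.GB Pool.Agent.Helper66.MB

theorem pre2 (f : ℕ → ℤ) (hf : ∀ n, f n = 1 ∨ f n = -1) (hM : ClG (Mf f)) (hL : ClG (GL.Lf f)) (hR : Ric f)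
    (u v : ℝ) (huv : u ^ 2 + v ^ 2 = 1) (ε : ℝ) (hε : 0 < ε) : ∃ T₀ : ℝ, ∀ X₀ : ℕ,
      ∃ (X : ℕ) (R : Finset ℕ) (μ : ℝ) (n : ℕ), X₀ ≤ X ∧ (∀ p ∈ R, p.Prime ∧ X < p) ∧
      (∀ y : ℕ, ((R.filter (fun p => p ≤ y)).card : ℝ) ≤ Real.sqrt y * Real.log y) ∧ μ ≤ T₀ ∧
      Peak2 (Mf (flipS f R)) (GL.Lf (flipS f R)) u v ε μ n :=
  Pool.Agent.Helper96.QC.pre2 f hf hM hL hR u v ε hε

end Pool.Agent.Helper66.JC
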