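import Pool.Agent.Helper7.PNT.AP
import Pool.Agent.Helper66.MB.Cluster
import Pool.Agent.Helper66.JC.Defs

/-!
# Joint class theorem (MP_a499ba_nt): many primes of both signs in short intervals

By the prime number theorem the interval `(Y, (1 + h) Y]` has about `h Y / log Y` primes, about half of them of each sign; cut it
into about `log Y` pieces.
-/

set_option autoImplicit false

namespace Pool.Agent.Helper66.JC

open Finset Filter Pool.Agent.Helper92.GB Pool.Agent.Helper66.MB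

theorem sgn_neg (ω : ℕ → ℤˣ) (n : ℕ) : sgn (fun i => -ω i) n = -sgn ω n := by
  unfold sgn
  split_ifs <;> simp

/-- At least half of the primes of an interval, up to one, have the sign `e`. -/
theorem half (ω : ℕ → ℤˣ) (e : ℤ) (he : e = 1 ∨ e = -1) (X Y : ℕ) (h : X ≤ Y) :
    ((Ioc X Y).filter Nat.Prime).card ≤
      2 * ((Ioc X Y).filter (fun p => p.Prime ∧ sgn ω p = e)).card + 2 := by
  rcases he with rfl | rfl
  · exact CL_half ω X Y h
  · have h1 := CL_half (fun i => -ω i) X Y h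
    have h2 : (Ioc X Y).filter (fun p => p.Prime ∧ sgn (fun i => -ω i) p = 1) =
        (Ioc X Y).filter (fun p => p.Prime ∧ sgn ω p = -1) := by
      refine filter_congr fun p _ => ?_
      rw [sgn_neg, neg_eq_iff_eq_neg]
    rwa [h2] at h1

/-- The number of primes in `(Y, (1 + h) Y]`. -/
theorem pnt_window (h : ℝ) (hh : 0 < h) : Tendsto (fun Y : ℝ =>
    ((Nat.primeCounting ⌊(1 + h) * Y⌋₊ : ℝ) - Nat.primeCounting ⌊Y⌋₊) * Real.log Y / Y) atTop (nhds h) := by
  have h1 := Helper7.PNT.prime_number_theorem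
  have h2 : Tendsto (fun Y : ℝ => (1 + h) * Y) atTop atTop :=
    tendsto_id.const_mul_atTop (by linarith)
  have h3 := h1.comp h2
  have h4 : Tendsto (fun Y : ℝ => Real.log Y / Real.log ((1 + h) * Y)) atTop (nhds 1) := by
    have h5 : Tendsto (fun Y : ℝ => Real.log (1 + h) / Real.log Y) atTop (nhds 0) :=
      tendsto_const_nhds.div_atTop Real.tendsto_log_atTop
    have h6 : Tendsto (fun Y : ℝ => (Real.log (1 + h) / Real.log Y + 1)⁻¹) atTop (nhds 1) := by
      have := (h5.add_const 1).inv₀ (by norm_num)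
      simpa using this
    refine h6.congr' ?_
    filter_upwards [eventually_gt_atTop 1] with Y hY
    have h7 : 0 < Real.log Y := Real.log_pos hY
    have h8 : 0 < Real.log (1 + h) := Real.log_pos (by linarith)
    rw [Real.log_mul (by linarith) (by linarith)]
    field_simp
  have h9 := ((h3.mul h4).const_mul (1 + h)).sub h1
  have h10 : (1 + h) * (1 * 1) - 1 = h := by ring
  rw [h10] at h9
  refine h9.congr' ?_
  filter_upwards [eventually_gt_atTop 1] with Y hY
  have h7 : 0 < Real.log ((1 + h) * Y) := Real.log_pos (by nlinarith)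
  have h8 : 0 < Y := by linarith
  simp only [Function.comp_apply]
  field_simp

theorem ric_base (ω : ℕ → ℤˣ) : Ric (sgn ω) := by
  intro η hη e he
  set h : ℝ := min (η / 4) (1 / 4) with hh
  have hh0 : 0 < h := by rw [hh]; positivity
  have hhη : h ≤ η / 4 := min_le_left _ _
  have hh1 : h ≤ 1 / 4 := min_le_right _ _
  have e1 := (pnt_window h hh0).eventually (lt_mem_nhds (show h / 2 < h by linarith))
  have e2 : Tendsto (fun Y : ℝ => Real.log Y ^ 2 / Y ^ ((1 : ℝ) / 4)) atTop (nhds 0) := by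
    have := (isLittleO_log_rpow_atTop (show (0 : ℝ) < 1 / 8 by norm_num)).tendsto_div_nhds_zero
    have h2 := this.pow 2
    simp only [ne_eq, OfNat.ofNat_ne_zero, not_false_eq_true, zero_pow] at h2
    refine h2.congr' ?_
    filter_upwards [eventually_gt_atTop 0] with Y hY
    rw [div_pow, ← Real.rpow_natCast (Y ^ ((1 : ℝ) / 8)), ← Real.rpow_mul hY.le]
    norm_num
  have e3 := e2.eventually (gt_mem_nhds (show (0 : ℝ) < h / 100 by positivity))
  have e4 : Tendsto (fun Y : ℝ => Y ^ ((1 : ℝ) / 12)) atTop atTop := tendsto_rpow_atTop (by norm_num)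
  have e5 : ∀ᶠ Y : ℝ in atTop, 4 * Real.log (2 * Y) ≤ Y := by
    have h1 : Tendsto (fun Y : ℝ => 2 * Y) atTop atTop := tendsto_id.const_mul_atTop (by norm_num)
    have := (isLittleO_log_rpow_atTop (show (0 : ℝ) < 1 by norm_num)).tendsto_div_nhds_zero.comp h1
    filter_upwards [this.eventually (gt_mem_nhds (show (0 : ℝ) < 1 / 8 by norm_num)),
      eventually_gt_atTop 0] with Y h2 h3
    simp only [Function.comp_apply, Real.rpow_one] at h2
    rw [div_lt_iff₀ (by positivity)] at h2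
    linarith
  obtain ⟨Y₀, hY₀⟩ := eventually_atTop.1 (e1.and (e3.and ((e4.eventually_ge_atTop 4).and
    (e5.and ((Real.tendsto_log_atTop.eventually_ge_atTop 4).and
      (eventually_ge_atTop (max 100 (8 / η))))))))
  refine ⟨Y₀, fun Y hY => ?_⟩
  obtain ⟨f1, f2, f3, f4, f5, f6⟩ := hY₀ Y hY
  have hY100 : 100 ≤ Y := (le_max_left _ _).trans f6
  have hYη : 8 / η ≤ Y := (le_max_right _ _).trans f6
  rw [div_le_iff₀ hη] at hYη
  have hY0 : 0 < Y := by linarith
  set L : ℝ := Real.log Y with hL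
  have hL0 : 0 < L := by linarith
  set M : ℝ := Real.log (2 * Y) with hM
  have hML : M ≤ L + 1 := by
    rw [hM, Real.log_mul (by norm_num) (by linarith)]
    have := Real.log_two_lt_d9
    linarith
  have hLM : L ≤ M := Real.log_le_log hY0 (by linarith)
  have hM0 : 0 < M := by linarith
  by_contra hcon
  push Not at hcon
  -- the cells
  set a : ℕ := ⌊Y⌋₊ + 1 with ha
  set W : ℕ := ⌊Y / M⌋₊ with hW
  set b : ℕ := ⌊(1 + h) * Y⌋₊ with hb
  have haY : Y ≤ a := by
    rw [ha]; push_cast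
    exact (Nat.lt_floor_add_one Y).le
  have haY' : (a : ℝ) ≤ Y + 1 := by
    rw [ha]; push_cast
    have := Nat.floor_le hY0.le
    linarith
  have hWle : (W : ℝ) ≤ Y / M := Nat.floor_le (by positivity)
  have hYM : 4 ≤ Y / M := by
    rw [le_div_iff₀ hM0]; linarith
  have hWge : Y / M / 2 ≤ W := by
    have := Nat.lt_floor_add_one (Y / M)
    rw [← hW] at this
    linarith
  have hW1 : 1 ≤ W := by
    have : (1 : ℝ) ≤ W := by linarith
    exact_mod_cast this
  have hbY : (b : ℝ) ≤ (1 + h) * Y := Nat.floor_le (by positivity)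
  have hbY' : (1 + h) * Y - 1 < b := by
    have := Nat.lt_floor_add_one ((1 + h) * Y)
    rw [← hb] at this
    linarith
  set n : ℕ := ⌈h * Y / W⌉₊ with hn
  have hW0 : (0 : ℝ) < W := by exact_mod_cast hW1
  have hnle : (n : ℝ) ≤ h * Y / W + 1 := (Nat.ceil_lt_add_one (by positivity)).le
  have hnW : h * Y ≤ n * W := by
    have := Nat.le_ceil (h * Y / W)
    rw [← hn, div_le_iff₀ hW0] at this
    exact this
  have hn2 : (n : ℝ) ≤ M + 1 := by
    have h1 : h * Y / W ≤ M := by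
      rw [div_le_iff₀ hW0]
      have h2 : M * (Y / M / 2) ≤ M * W := mul_le_mul_of_nonneg_left hWge hM0.le
      have h3 : M * (Y / M / 2) = Y / 2 := by field_simp
      nlinarith
    linarith
  have hcover : (Ioc a b).filter (fun p => p.Prime ∧ sgn ω p = e) ⊆
      (range n).biUnion fun i => (Ioc (a + i * W) (a + i * W + W)).filter (fun p => p.Prime ∧ sgn ω p = e) := by
    intro p hp
    rw [mem_filter, mem_Ioc] at hp
    obtain ⟨⟨hp1, hp2⟩, hp3⟩ := hp
    rw [mem_biUnion]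
    have hq : (p - a - 1) / W * W ≤ p - a - 1 := Nat.div_mul_le_self _ _
    have hq' : p - a - 1 < ((p - a - 1) / W + 1) * W := by
      rw [Nat.mul_comm]
      exact Nat.lt_mul_div_succ _ (by omega)
    rw [add_mul, one_mul] at hq'
    refine ⟨(p - a - 1) / W, ?_, ?_⟩
    · rw [mem_range]
      rw [Nat.div_lt_iff_lt_mul (by omega)]
      have h4 : (p : ℝ) ≤ b := by exact_mod_cast hp2
      have h5 : (p : ℝ) - a < n * W + 1 := by linarith
      have h6 : p < n * W + 1 + a := by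
        have : (p : ℝ) < ((n * W + 1 + a : ℕ) : ℝ) := by push_cast; linarith
        exact_mod_cast this
      omega
    · rw [mem_filter, mem_Ioc]
      exact ⟨⟨by omega, by omega⟩, hp3⟩
  have hcell : ∀ i ∈ range n, (((Ioc (a + i * W) (a + i * W + W)).filter
      (fun p => p.Prime ∧ sgn ω p = e)).card : ℝ) ≤ (2 * Y) ^ ((2 : ℝ) / 3) := by
    intro i hi
    have hi' : (i : ℝ) + 1 ≤ n := by exact_mod_cast mem_range.1 hi
    have g1 : Y ≤ ((a + i * W : ℕ) : ℝ) := by
      push_cast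
      have : (0 : ℝ) ≤ i * W := by positivity
      linarith
    have g0 : (i : ℝ) * W ≤ h * Y := by
      have : (i : ℝ) ≤ h * Y / W := by linarith
      rwa [le_div_iff₀ hW0] at this
    have g2 : ((a + i * W : ℕ) : ℝ) ≤ (1 + η) * Y := by
      push_cast
      nlinarith
    have g3 : ((a + i * W : ℕ) : ℝ) ≤ 2 * Y := by
      push_cast
      nlinarith
    have g4 := hcon (a + i * W) g1 g2
    have g5 : W ≤ ⌊((a + i * W : ℕ) : ℝ) / Real.log ((a + i * W : ℕ) : ℝ)⌋₊ := by
      apply Nat.floor_le_floor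
      have g6 : Real.log ((a + i * W : ℕ) : ℝ) ≤ M := Real.log_le_log (by linarith) g3
      have g7 : 0 < Real.log ((a + i * W : ℕ) : ℝ) := Real.log_pos (by linarith)
      exact div_le_div₀ (by linarith) g1 g7 g6
    have g8 : (Ioc (a + i * W) (a + i * W + W)).filter (fun p => p.Prime ∧ sgn ω p = e) ⊆
        (Ioc (a + i * W) (a + i * W + ⌊((a + i * W : ℕ) : ℝ) / Real.log ((a + i * W : ℕ) : ℝ)⌋₊)).filter
          (fun p => p.Prime ∧ sgn ω p = e) := by
      apply filter_subset_filter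
      exact Ioc_subset_Ioc_right (by omega)
    have g9 := card_le_card g8
    have g10 : (((Ioc (a + i * W) (a + i * W + W)).filter
      (fun p => p.Prime ∧ sgn ω p = e)).card : ℝ) ≤
        (((Ioc (a + i * W) (a + i * W + ⌊((a + i * W : ℕ) : ℝ) / Real.log ((a + i * W : ℕ) : ℝ)⌋₊)).filter
          (fun p => p.Prime ∧ sgn ω p = e)).card : ℝ) := Nat.cast_le.2 g9
    refine g10.trans (g4.le.trans ?_)
    exact Real.rpow_le_rpow (by linarith) g3 (by norm_num)
  have hcard : (((Ioc a b).filter (fun p => p.Prime ∧ sgn ω p = e)).card : ℝ) ≤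
      (M + 1) * (2 * Y) ^ ((2 : ℝ) / 3) := by
    have g1 : (((Ioc a b).filter (fun p => p.Prime ∧ sgn ω p = e)).card : ℝ) ≤
        ∑ i ∈ range n, (((Ioc (a + i * W) (a + i * W + W)).filter
          (fun p => p.Prime ∧ sgn ω p = e)).card : ℝ) := by
      exact_mod_cast (card_le_card hcover).trans card_biUnion_le
    refine g1.trans ((sum_le_sum hcell).trans ?_)
    rw [sum_const, card_range, nsmul_eq_mul]
    exact mul_le_mul_of_nonneg_right hn2 (by positivity)
  -- many primes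
  have hab : a ≤ b := by
    have : (a : ℝ) ≤ b + 1 := by
      have : 2 ≤ h * Y ∨ h * Y < 2 := le_or_gt _ _
      rcases this with h2 | h2
      · linarith
      · exfalso
        rcases min_choice (η / 4) (1 / 4 : ℝ) with h3 | h3
        · rw [← hh] at h3; rw [h3] at h2; linarith
        · rw [← hh] at h3; rw [h3] at h2; linarith
    have h2 : a ≤ b + 1 := by exact_mod_cast this
    by_contra hlt
    have h3 : a = b + 1 := by omega
    have h4 : 2 ≤ h * Y := by
      rcases min_choice (η / 4) (1 / 4 : ℝ) with h5 | h5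
      · rw [← hh] at h5; rw [h5]; linarith
      · rw [← hh] at h5; rw [h5]; linarith
    have h6 : (a : ℝ) = b + 1 := by exact_mod_cast h3
    linarith
  have hpc : (Nat.primeCounting b : ℝ) - Nat.primeCounting ⌊Y⌋₊ - 1 ≤ (((Ioc a b).filter Nat.Prime).card : ℝ) := by
    have g1 := CL_card a b hab
    have g2 : Nat.primeCounting b = Nat.count Nat.Prime (b + 1) := rfl
    have g3 : Nat.primeCounting ⌊Y⌋₊ = Nat.count Nat.Prime (⌊Y⌋₊ + 1) := rfl
    have g4 : Nat.count Nat.Prime (a + 1) ≤ Nat.count Nat.Prime (⌊Y⌋₊ + 1) + 1 := by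
      rw [ha, Nat.count_succ]
      split_ifs <;> omega
    have g5 : Nat.primeCounting b ≤ Nat.primeCounting ⌊Y⌋₊ + 1 + ((Ioc a b).filter Nat.Prime).card := by
      rw [g2, g3]; omega
    have g6 : (Nat.primeCounting b : ℝ) ≤ Nat.primeCounting ⌊Y⌋₊ + 1 + (((Ioc a b).filter Nat.Prime).card : ℝ) := by
      exact_mod_cast g5
    linarith
  have hhalf := half ω e he a b hab
  have hhalf' : (((Ioc a b).filter Nat.Prime).card : ℝ) ≤
      2 * (((Ioc a b).filter (fun p => p.Prime ∧ sgn ω p = e)).card : ℝ) + 2 := by exact_mod_cast hhalf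
  have f1' : h / 2 * Y / L < (Nat.primeCounting b : ℝ) - Nat.primeCounting ⌊Y⌋₊ := by
    rw [lt_div_iff₀ hY0] at f1
    rw [div_lt_iff₀ hL0]
    exact f1
  have key : h / 2 * Y / L < 2 * ((M + 1) * (2 * Y) ^ ((2 : ℝ) / 3)) + 3 := by linarith
  -- contradiction
  have k1 : (2 * Y) ^ ((2 : ℝ) / 3) ≤ 2 * Y ^ ((2 : ℝ) / 3) := by
    rw [Real.mul_rpow (by norm_num) hY0.le]
    have : (2 : ℝ) ^ ((2 : ℝ) / 3) ≤ 2 ^ (1 : ℝ) := Real.rpow_le_rpow_of_exponent_le (by norm_num) (by norm_num)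
    rw [Real.rpow_one] at this
    gcongr
  have k2 : (1 : ℝ) ≤ Y ^ ((2 : ℝ) / 3) := Real.one_le_rpow (by linarith) (by norm_num)
  have k3 : 2 * ((M + 1) * (2 * Y) ^ ((2 : ℝ) / 3)) + 3 ≤ 8 * L * Y ^ ((2 : ℝ) / 3) := by
    have k4 : (M + 1) * (2 * Y) ^ ((2 : ℝ) / 3) ≤ (L + 2) * (2 * Y ^ ((2 : ℝ) / 3)) :=
      mul_le_mul (by linarith) k1 (by positivity) (by linarith)
    have k4' : 4 * Y ^ ((2 : ℝ) / 3) ≤ L * Y ^ ((2 : ℝ) / 3) := mul_le_mul_of_nonneg_right f5 (by linarith)
    linarith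
  have k5 : h / 2 * Y / L < 8 * L * Y ^ ((2 : ℝ) / 3) := key.trans_le k3
  rw [div_lt_iff₀ hL0] at k5
  have k6 : Y ^ ((1 : ℝ) / 4) * Y ^ ((1 : ℝ) / 12) * Y ^ ((2 : ℝ) / 3) = Y := by
    rw [← Real.rpow_add hY0, ← Real.rpow_add hY0]; norm_num
  have k7 : L ^ 2 < h / 100 * Y ^ ((1 : ℝ) / 4) := by
    rw [div_lt_iff₀ (by positivity)] at f2
    exact f2
  have k8 : 8 * L * Y ^ ((2 : ℝ) / 3) * L < h / 2 * Y := by
    calc 8 * L * Y ^ ((2 : ℝ) / 3) * L = 8 * Y ^ ((2 : ℝ) / 3) * L ^ 2 := by ring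
      _ < 8 * Y ^ ((2 : ℝ) / 3) * (h / 100 * Y ^ ((1 : ℝ) / 4)) := by gcongr
      _ ≤ h / 2 * (Y ^ ((1 : ℝ) / 4) * Y ^ ((1 : ℝ) / 12) * Y ^ ((2 : ℝ) / 3)) := by
          have k9 : 0 < Y ^ ((2 : ℝ) / 3) := by positivity
          have k10 : 0 < Y ^ ((1 : ℝ) / 4) := by positivity
          have k11 : 0 ≤ h * Y ^ ((2 : ℝ) / 3) * Y ^ ((1 : ℝ) / 4) := by positivity
          nlinarith
      _ = h / 2 * Y := by rw [k6]
  linarith

theorem ric_flipS (f : ℕ → ℤ) (h : Ric f) (S : Finset ℕ) : Ric (flipS f S) := by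
  intro η hη e he
  obtain ⟨Y₀, hY₀⟩ := h η hη e he
  refine ⟨max Y₀ ((S.sup id : ℕ) : ℝ), fun Y hY => ?_⟩
  obtain ⟨Z, hZ1, hZ2, hZ3⟩ := hY₀ Y ((le_max_left _ _).trans hY)
  refine ⟨Z, hZ1, hZ2, ?_⟩
  have hsup : S.sup id ≤ Z := by exact_mod_cast ((le_max_right _ _).trans hY).trans hZ1
  have hS : ∀ p, Z < p → flipS f S p = f p := by
    intro p hp
    unfold flipS
    rw [if_neg]
    intro hpS
    have h1 : p ≤ S.sup id := Finset.le_sup (f := id) hpS
    omega
  have heq : (Ioc Z (Z + ⌊(Z : ℝ) / Real.log Z⌋₊)).filter (fun p => p.Prime ∧ flipS f S p = e) =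
      (Ioc Z (Z + ⌊(Z : ℝ) / Real.log Z⌋₊)).filter (fun p => p.Prime ∧ f p = e) := by
    apply filter_congr
    intro p hp
    rw [mem_Ioc] at hp
    rw [hS p hp.1]
  rw [heq]
  exact hZ3

end Pool.Agent.Helper66.JC
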