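import Pool.Agent.Helper66.JC.MainStage
import Pool.Agent.Helper66.JC.Ric
import Pool.Agent.Helper66.JC.Pre

/-!
# Joint class theorem (MP_a499ba_nt): a combined stage

A preliminary stage makes one of the two functions large with one sign, and keeps the rest relatively small; the
main stage then copies the peak to size `b √x φ(x)`.
-/

set_option autoImplicit false

namespace Pool.Agent.Helper66.JC

open Finset Filter Pool.Agent.Helper92.GB Pool.Agent.Helper66.MB

theorem sumOp_act (k : Fin 4) : SumOp (act k) := by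
  unfold act
  split_ifs
  · exact sumOp_M
  · exact sumOp_L

theorem sumOp_pas (k : Fin 4) : SumOp (pas k) := by
  unfold pas
  split_ifs
  · exact sumOp_L
  · exact sumOp_M

theorem sg_or (k : Fin 4) : sg k = 1 ∨ sg k = -1 := by
  unfold sg
  split_ifs <;> simp

theorem cl_act {f : ℕ → ℤ} (hM : ClG (Mf f)) (hL : ClG (GL.Lf f)) (k : Fin 4) : ClG (act k f) := by
  unfold act
  split_ifs
  · exact hM
  · exact hL

theorem cl_pas {f : ℕ → ℤ} (hM : ClG (Mf f)) (hL : ClG (GL.Lf f)) (k : Fin 4) : ClG (pas k f) := by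
  unfold pas
  split_ifs
  · exact hL
  · exact hM

theorem flipS_sign {f : ℕ → ℤ} (hf : ∀ n, f n = 1 ∨ f n = -1) (R : Finset ℕ) (n : ℕ) :
    flipS f R n = 1 ∨ flipS f R n = -1 := by
  unfold flipS
  rcases hf n with h | h <;> split_ifs <;> simp [h]

theorem flipS_union (f : ℕ → ℤ) {R S : Finset ℕ} (h : Disjoint R S) : flipS (flipS f R) S = flipS f (R ∪ S) := by
  funext n
  unfold flipS
  by_cases h1 : n ∈ R
  · have h2 : n ∉ S := Finset.disjoint_left.1 h h1
    simp [h1, h2]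
  · by_cases h2 : n ∈ S <;> simp [h1, h2]

theorem stage2 {φ : ℝ → ℝ} (hφ : Adm φ) (f : ℕ → ℤ) (hf : ∀ n, f n = 1 ∨ f n = -1) (hM : ClG (Mf f))
    (hL : ClG (GL.Lf f)) (hR : Ric f) (k : Fin 4) (b δ : ℝ) (hb : 0 < b) (hδ : 0 < δ) (X₀ : ℕ) :
    ∃ (X N : ℕ) (R : Finset ℕ), X₀ ≤ X ∧ X ≤ N ∧ (∀ p ∈ R, p.Prime ∧ X < p ∧ p ≤ N) ∧
      (∀ y : ℕ, ((R.filter (fun p => p ≤ y)).card : ℝ) ≤ 2 * (Real.sqrt y * Real.log y)) ∧
      (∀ x : ℕ, X ≤ x → -(δ * (Real.sqrt x * φ x)) ≤ sg k * act k (flipS f R) x ∧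
        sg k * act k (flipS f R) x ≤ (b + δ) * (Real.sqrt x * φ x) ∧
        |pas k (flipS f R) x| ≤ δ * (Real.sqrt x * φ x)) ∧
      ∃ x : ℕ, X ≤ x ∧ x ≤ N ∧ (b - δ) * (Real.sqrt x * φ x) ≤ sg k * act k (flipS f R) x := by
  set ε : ℝ := min 1 (δ / (2 * b)) with hε
  have hε0 : 0 < ε := by positivity
  have hε1 : ε ≤ 1 := min_le_left _ _
  have hεb : ε * b ≤ δ / 2 := by
    have h1 : ε ≤ δ / (2 * b) := min_le_right _ _
    rw [le_div_iff₀ (by positivity)] at h1
    linarith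
  set δ₁ : ℝ := min (δ / 2) b with hδ₁
  have hδ₁0 : 0 < δ₁ := by positivity
  have hδ₁δ : δ₁ ≤ δ / 2 := min_le_left _ _
  have hδ₁b : δ₁ ≤ b := min_le_right _ _
  obtain ⟨T₀, hpre⟩ := pre f hf hM hL hR k ε hε0
  obtain ⟨x₁, hx₁⟩ := ((hφ.top.eventually_ge_atTop (|T₀| / δ)).and (eventually_ge_atTop (0 : ℝ))).exists_forall_of_atTop
  obtain ⟨X, R₁, μ, n, hX, hR₁, hR₁c, hμ, hP⟩ := hpre (X₀ + ⌈x₁⌉₊)
  obtain ⟨X', N', R₂, hX', hXN', hR₂, hR₂c, hb', hlo⟩ := main_stage hφ (sumOp_act k).to0 (sumOp_pas k).to0 (flipS f R₁)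
    (flipS_sign hf R₁) ((sumOp_act k).cl f hf (cl_act hM hL k) R₁) ((sumOp_pas k).cl f hf (cl_pas hM hL k) R₁)
    (ric_flipS f hR R₁) (sg k) (sg_or k) ε μ hε0.le hε1 n hP b δ₁ hb hδ₁0 hδ₁b (X + ∑ p ∈ R₁, p)
  have hR₁X' : ∀ p ∈ R₁, p ≤ X' := by
    intro p hp
    have h1 : p ≤ ∑ p ∈ R₁, p := Finset.single_le_sum (f := fun p => p) (fun _ _ => Nat.zero_le _) hp
    omega
  have hdis : Disjoint R₁ R₂ := by
    rw [Finset.disjoint_left]
    intro p hp hp'
    have h1 := hR₁X' p hp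
    have h2 := (hR₂ p hp').2.1
    omega
  have hXX' : X ≤ X' := by omega
  have hU : flipS (flipS f R₁) R₂ = flipS f (R₁ ∪ R₂) := flipS_union f hdis
  have hT : ∀ x : ℕ, X ≤ x → μ ≤ δ * φ x ∧ 0 ≤ φ x := by
    intro x hx
    have h1 : x₁ ≤ x := by
      have h2 : (⌈x₁⌉₊ : ℝ) ≤ x := by
        have : ⌈x₁⌉₊ ≤ x := by omega
        exact_mod_cast this
      exact (Nat.le_ceil _).trans h2
    have h3 := (hx₁ x h1).1
    rw [div_le_iff₀ hδ] at h3
    have h4 : 0 ≤ |T₀| / δ := by positivity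
    refine ⟨?_, h4.trans (hx₁ x h1).1⟩
    have h5 := le_abs_self T₀
    linarith
  rw [hU] at hb' hlo
  refine ⟨X, max N' (2 * X'), R₁ ∪ R₂, by omega, by omega, ?_, ?_, ?_, ?_⟩
  · intro p hp
    rcases mem_union.1 hp with h | h
    · have h1 := hR₁ p h
      have h2 := hR₁X' p h
      exact ⟨h1.1, h1.2, by omega⟩
    · have h1 := hR₂ p h
      exact ⟨h1.1, by omega, by omega⟩
  · intro y
    have h1 : (((R₁ ∪ R₂).filter (fun p => p ≤ y)).card : ℝ) ≤
        ((R₁.filter (fun p => p ≤ y)).card : ℝ) + ((R₂.filter (fun p => p ≤ y)).card : ℝ) := by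
      rw [filter_union]
      exact_mod_cast card_union_le _ _
    have h2 := hR₁c y
    have h3 : ((R₂.filter (fun p => p ≤ y)).card : ℝ) ≤ Real.sqrt y * Real.log y := by
      by_cases hy : X' < y
      · have h4 : ((R₂.filter (fun p => p ≤ y)).card : ℝ) ≤ (R₂.card : ℝ) := by
          exact_mod_cast card_le_card (filter_subset _ _)
        have h6 : ((X' : ℕ) : ℝ) ≤ y := by exact_mod_cast hy.le
        rcases Nat.eq_zero_or_pos X' with h0 | h0
        · rw [h0] at hR₂c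
          simp only [Nat.cast_zero, Real.sqrt_zero, zero_mul] at hR₂c
          have h5 : 0 ≤ Real.sqrt y * Real.log y :=
            mul_nonneg (Real.sqrt_nonneg _) (Real.log_natCast_nonneg _)
          linarith
        · have h7 : (0 : ℝ) < X' := by exact_mod_cast h0
          have h5 : Real.sqrt X' * Real.log X' ≤ Real.sqrt y * Real.log y :=
            mul_le_mul (Real.sqrt_le_sqrt h6) (Real.log_le_log h7 h6) (Real.log_natCast_nonneg _)
              (Real.sqrt_nonneg _)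
          linarith
      · have h4 : R₂.filter (fun p => p ≤ y) = ∅ := by
          refine filter_eq_empty_iff.2 fun p hp => ?_
          have := (hR₂ p hp).2.1
          omega
        rw [h4, card_empty, Nat.cast_zero]
        exact mul_nonneg (Real.sqrt_nonneg _) (Real.log_natCast_nonneg _)
    linarith
  · intro x hx
    obtain ⟨hT1, hT2⟩ := hT x hx
    have hs0 : 0 ≤ Real.sqrt x := Real.sqrt_nonneg _
    have hsφ : 0 ≤ Real.sqrt x * φ x := mul_nonneg hs0 hT2
    rcases le_or_gt X' x with h | h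
    · obtain ⟨h1, h2, h3⟩ := hb' x h
      have h4 : (ε * b + δ₁) * (Real.sqrt x * φ x) ≤ δ * (Real.sqrt x * φ x) :=
        mul_le_mul_of_nonneg_right (by linarith) hsφ
      have h5 : (b + δ₁) * (Real.sqrt x * φ x) ≤ (b + δ) * (Real.sqrt x * φ x) :=
        mul_le_mul_of_nonneg_right (by linarith) hsφ
      exact ⟨by linarith, by linarith, by linarith⟩
    · obtain ⟨-, hμ1, -, hup, hlow, hpas⟩ := hP
      have hag : ∀ p : ℕ, p.Prime → p ≤ x → flipS f (R₁ ∪ R₂) p = flipS f R₁ p := by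
        intro p _ hpx
        have h1 : p ∉ R₂ := by
          intro hp
          have := (hR₂ p hp).2.1
          omega
        unfold flipS
        simp [h1]
      rw [(sumOp_act k).congr _ _ x hag, (sumOp_pas k).congr _ _ x hag]
      have h1 := hup x
      have h2 := hlow x
      have h3 := hpas x
      have h4 : μ * Real.sqrt x ≤ δ * (Real.sqrt x * φ x) := by
        have := mul_le_mul_of_nonneg_right hT1 hs0
        linarith
      have h5 : ε * μ * Real.sqrt x ≤ μ * Real.sqrt x := by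
        have h6 : 0 ≤ μ * Real.sqrt x := mul_nonneg (by linarith) hs0
        nlinarith
      have h7 : 0 ≤ b * (Real.sqrt x * φ x) := mul_nonneg hb.le hsφ
      exact ⟨by linarith, by linarith, by linarith⟩
  · obtain ⟨x, hx1, hx2, hx3⟩ := hlo
    obtain ⟨hT1, hT2⟩ := hT x (by omega)
    refine ⟨x, by omega, by omega, ?_⟩
    have hsφ : 0 ≤ Real.sqrt x * φ x := mul_nonneg (Real.sqrt_nonneg _) hT2
    have h4 : (b - δ) * (Real.sqrt x * φ x) ≤ (b - δ₁) * (Real.sqrt x * φ x) :=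
      mul_le_mul_of_nonneg_right (by linarith) hsφ
    linarith

end Pool.Agent.Helper66.JC
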