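import Pool.Agent.Helper66.JC.Stage
import Pool.Agent.Helper66.JC.Pre2
import Pool.Agent.Helper96.QC.Pre

/-!
# Joint class theorem (MP_a499ba_nt): a combined stage in an arbitrary direction
-/

set_option autoImplicit false

namespace Pool.Agent.Helper66.JC

open Finset Filter Pool.Agent.Helper92.GB Pool.Agent.Helper66.MB

theorem sumOp0_comp (u v : ℝ) : SumOp0 (comp u v) where
  zero f := by
    unfold comp
    rw [sumOp_M.zero, sumOp_L.zero, mul_zero, mul_zero, add_zero]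
  flip f p hp hf x := by
    unfold comp
    have h1 := sumOp_M.flip f p hp hf x
    have h2 := sumOp_L.flip f p hp hf x
    linear_combination u * h1 + v * h2

theorem comp_congr (u v : ℝ) (f g : ℕ → ℤ) (x : ℕ) (h : ∀ p, p.Prime → p ≤ x → f p = g p) :
    comp u v f x = comp u v g x := by
  unfold comp
  rw [sumOp_M.congr f g x h, sumOp_L.congr f g x h]

theorem cl_comp (u v : ℝ) {f : ℕ → ℤ} (hM : ClG (Mf f)) (hL : ClG (GL.Lf f)) : ClG (comp u v f) := by
  obtain ⟨C₁, h1⟩ := hM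
  obtain ⟨C₂, h2⟩ := hL
  refine ⟨|u| * C₁ + |v| * C₂, fun x hx => ?_⟩
  have h3 : |comp u v f x| ≤ |u| * |Mf f x| + |v| * |GL.Lf f x| := by
    unfold comp
    refine (abs_add_le _ _).trans (le_of_eq ?_)
    rw [abs_mul, abs_mul]
  have h4 := mul_le_mul_of_nonneg_left (h1 x hx) (abs_nonneg u)
  have h5 := mul_le_mul_of_nonneg_left (h2 x hx) (abs_nonneg v)
  linarith

/-- From the two functions to the two components. -/
theorem peak2_comp {f : ℕ → ℤ} {u v ε μ : ℝ} {n : ℕ} (huv : u ^ 2 + v ^ 2 = 1) (hε : 0 ≤ ε) (hμ : 0 ≤ μ)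
    (hM : ∃ θ : ℝ, 0 ≤ θ ∧ θ ≤ 1 ∧ |Mf f n - θ * u * μ * Real.sqrt n| ≤ ε * μ * Real.sqrt n ∧
      |GL.Lf f n - θ * v * μ * Real.sqrt n| ≤ ε * μ * Real.sqrt n) :
    -(2 * ε * μ * Real.sqrt n) ≤ comp u v f n ∧ comp u v f n ≤ (1 + 2 * ε) * μ * Real.sqrt n ∧
      |comp (-v) u f n| ≤ 2 * ε * μ * Real.sqrt n := by
  obtain ⟨θ, h0, h1, h2, h3⟩ := hM
  set s := Real.sqrt n with hs
  have hs0 : 0 ≤ s := Real.sqrt_nonneg _
  have hE : 0 ≤ ε * μ * s := mul_nonneg (mul_nonneg hε hμ) hs0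
  have hu : |u| ≤ 1 := by
    rw [abs_le]
    constructor <;> nlinarith [sq_nonneg v]
  have hv : |v| ≤ 1 := by
    rw [abs_le]
    constructor <;> nlinarith [sq_nonneg u]
  have hθ : 0 ≤ θ * (μ * s) := mul_nonneg h0 (mul_nonneg hμ hs0)
  have hθ1 : θ * (μ * s) ≤ μ * s := mul_le_of_le_one_left (mul_nonneg hμ hs0) h1
  have key : ∀ a c : ℝ, |a| ≤ 1 → |c| ≤ 1 →
      |a * (Mf f n - θ * u * μ * s) + c * (GL.Lf f n - θ * v * μ * s)| ≤ 2 * (ε * μ * s) := by
    intro a c ha hc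
    refine (abs_add_le _ _).trans ?_
    rw [abs_mul, abs_mul]
    have h4 := mul_le_mul ha h2 (abs_nonneg _) zero_le_one
    have h5 := mul_le_mul hc h3 (abs_nonneg _) zero_le_one
    linarith
  have k1 := key u v hu hv
  have k2 := key (-v) u (by rwa [abs_neg]) hu
  have e1 : u * (Mf f n - θ * u * μ * s) + v * (GL.Lf f n - θ * v * μ * s) = comp u v f n - θ * (μ * s) := by
    unfold comp
    linear_combination (-(θ * μ * s)) * huv
  have e2 : -v * (Mf f n - θ * u * μ * s) + u * (GL.Lf f n - θ * v * μ * s) = comp (-v) u f n := by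
    unfold comp
    ring
  rw [e1, abs_le] at k1
  rw [e2] at k2
  refine ⟨by linarith [k1.1], by linarith [k1.2], by linarith⟩

theorem stageD {φ : ℝ → ℝ} (hφ : Adm φ) (f : ℕ → ℤ) (hf : ∀ n, f n = 1 ∨ f n = -1) (hM : ClG (Mf f))
    (hL : ClG (GL.Lf f)) (hR : Ric f) (u v : ℝ) (huv : u ^ 2 + v ^ 2 = 1) (b δ : ℝ) (hb : 0 < b) (hδ : 0 < δ)
    (X₀ : ℕ) :
    ∃ (X N : ℕ) (R : Finset ℕ), X₀ ≤ X ∧ X ≤ N ∧ (∀ p ∈ R, p.Prime ∧ X < p ∧ p ≤ N) ∧
      (∀ y : ℕ, ((R.filter (fun p => p ≤ y)).card : ℝ) ≤ 2 * (Real.sqrt y * Real.log y)) ∧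
      (∀ x : ℕ, X ≤ x → -(δ * (Real.sqrt x * φ x)) ≤ comp u v (flipS f R) x ∧
        comp u v (flipS f R) x ≤ (b + δ) * (Real.sqrt x * φ x) ∧
        |comp (-v) u (flipS f R) x| ≤ δ * (Real.sqrt x * φ x)) ∧
      ∃ x : ℕ, X ≤ x ∧ x ≤ N ∧ (b - δ) * (Real.sqrt x * φ x) ≤ comp u v (flipS f R) x := by
  set ε : ℝ := min 1 (δ / (2 * b)) with hε
  have hε0 : 0 < ε := by positivity
  have hε1 : ε ≤ 1 := min_le_left _ _
  have hεb : ε * b ≤ δ / 2 := by
    have h1 : ε ≤ δ / (2 * b) := min_le_right _ _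
    rw [le_div_iff₀ (by positivity)] at h1
    linarith
  set δ₁ : ℝ := min (δ / 2) b with hδ₁
  have hδ₁0 : 0 < δ₁ := by positivity
  have hδ₁δ : δ₁ ≤ δ / 2 := min_le_left _ _
  have hδ₁b : δ₁ ≤ b := min_le_right _ _
  obtain ⟨T₀, hpre⟩ := pre2 f hf hM hL hR u v huv (ε / 8) (by positivity)
  obtain ⟨x₁, hx₁⟩ := ((hφ.top.eventually_ge_atTop (2 * |T₀| / δ)).and
    (eventually_ge_atTop (0 : ℝ))).exists_forall_of_atTop
  obtain ⟨X, R₁, μ, n, hX, hR₁, hR₁c, hμT, hn1, hμ2, hall, hnF, hnG⟩ := hpre (X₀ + ⌈x₁⌉₊)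
  have hμ0 : 0 ≤ μ := by linarith
  have hM1 : ClG (Mf (flipS f R₁)) := sumOp_M.cl f hf hM R₁
  have hL1 : ClG (GL.Lf (flipS f R₁)) := sumOp_L.cl f hf hL R₁
  have hc : ∀ x : ℕ, -(ε / 4 * μ * Real.sqrt x) ≤ comp u v (flipS f R₁) x ∧
      comp u v (flipS f R₁) x ≤ 2 * μ * Real.sqrt x ∧
      |comp (-v) u (flipS f R₁) x| ≤ ε / 4 * μ * Real.sqrt x := by
    intro x
    obtain ⟨h1, h2, h3⟩ := peak2_comp huv (by positivity : 0 ≤ ε / 8) hμ0 (hall x)
    have h4 : 0 ≤ μ * Real.sqrt x := mul_nonneg hμ0 (Real.sqrt_nonneg _)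
    refine ⟨by linarith, h2.trans ?_, by linarith⟩
    nlinarith
  -- the maximum
  have hcn : 3 / 4 * μ * Real.sqrt n ≤ 1 * comp u v (flipS f R₁) n := by
    set s := Real.sqrt n with hs
    have hs0 : 0 ≤ s := Real.sqrt_nonneg _
    have hu : |u| ≤ 1 := by
      rw [abs_le]
      constructor <;> nlinarith [sq_nonneg v]
    have hv : |v| ≤ 1 := by
      rw [abs_le]
      constructor <;> nlinarith [sq_nonneg u]
    have hE : 0 ≤ μ * s := mul_nonneg hμ0 hs0
    have h4 : |u * (Mf (flipS f R₁) n - u * μ * s) + v * (GL.Lf (flipS f R₁) n - v * μ * s)| ≤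
        2 * (ε / 8 * μ * s) := by
      refine (abs_add_le _ _).trans ?_
      rw [abs_mul, abs_mul]
      have h4 := mul_le_mul hu hnF (abs_nonneg _) zero_le_one
      have h5 := mul_le_mul hv hnG (abs_nonneg _) zero_le_one
      linarith
    have e1 : u * (Mf (flipS f R₁) n - u * μ * s) + v * (GL.Lf (flipS f R₁) n - v * μ * s) =
        comp u v (flipS f R₁) n - μ * s := by
      unfold comp
      linear_combination (-(μ * s)) * huv
    rw [e1, abs_le] at h4
    have h5 : 2 * (ε / 8 * μ * s) ≤ 1 / 4 * (μ * s) := by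
      have := mul_le_mul_of_nonneg_right hε1 hE
      linarith
    linarith [h4.1]
  obtain ⟨n', μ', hn', hμ', hatt, hmax⟩ := Helper96.QC.max_att (sumOp0_comp u v |>.zero (flipS f R₁))
    (cl_comp u v hM1 hL1) 1 (Or.inl rfl) (by linarith : 0 < 3 / 4 * μ) hn1 hcn
  have hμ'2 : μ' ≤ 2 * μ := by
    have h1 := (hc n').2.1
    rw [one_mul] at hatt
    rw [hatt] at h1
    have h2 : 0 < Real.sqrt n' := Real.sqrt_pos.2 (by exact_mod_cast hn')
    exact le_of_mul_le_mul_right h1 h2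
  have hεμ : ε / 4 * μ ≤ ε * μ' := by nlinarith
  have hP : Peak (comp u v (flipS f R₁)) (comp (-v) u (flipS f R₁)) 1 ε μ' n' := by
    refine ⟨hn', by linarith, hatt, hmax, fun x => ?_, fun x => ?_⟩
    · have h1 := (hc x).1
      have h2 := mul_le_mul_of_nonneg_right hεμ (Real.sqrt_nonneg (x : ℝ))
      linarith
    · have h1 := (hc x).2.2
      have h2 := mul_le_mul_of_nonneg_right hεμ (Real.sqrt_nonneg (x : ℝ))
      linarith
  obtain ⟨X', N', R₂, hX', hXN', hR₂, hR₂c, hb', hlo⟩ := main_stage hφ (sumOp0_comp u v) (sumOp0_comp (-v) u)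
    (flipS f R₁) (flipS_sign hf R₁) (cl_comp u v hM1 hL1) (cl_comp (-v) u hM1 hL1)
    (ric_flipS f hR R₁) 1 (Or.inl rfl) ε μ' hε0.le hε1 n' hP b δ₁ hb hδ₁0 hδ₁b (X + ∑ p ∈ R₁, p)
  simp only [one_mul] at hb' hlo
  have hR₁X' : ∀ p ∈ R₁, p ≤ X' := by
    intro p hp
    have h1 : p ≤ ∑ p ∈ R₁, p := Finset.single_le_sum (f := fun p => p) (fun _ _ => Nat.zero_le _) hp
    omega
  have hdis : Disjoint R₁ R₂ := by
    rw [Finset.disjoint_left]
    intro p hp hp'
    have h1 := hR₁X' p hp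
    have h2 := (hR₂ p hp').2.1
    omega
  have hXX' : X ≤ X' := by omega
  have hU : flipS (flipS f R₁) R₂ = flipS f (R₁ ∪ R₂) := flipS_union f hdis
  have hT : ∀ x : ℕ, X ≤ x → 2 * μ ≤ δ * φ x ∧ 0 ≤ φ x := by
    intro x hx
    have h1 : x₁ ≤ x := by
      have h2 : (⌈x₁⌉₊ : ℝ) ≤ x := by
        have : ⌈x₁⌉₊ ≤ x := by omega
        exact_mod_cast this
      exact (Nat.le_ceil _).trans h2
    have h3 := (hx₁ x h1).1
    rw [div_le_iff₀ hδ] at h3
    have h4 : 0 ≤ 2 * |T₀| / δ := by positivity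
    refine ⟨?_, h4.trans (hx₁ x h1).1⟩
    have h5 := le_abs_self T₀
    linarith
  rw [hU] at hb' hlo
  refine ⟨X, max N' (2 * X'), R₁ ∪ R₂, by omega, by omega, ?_, ?_, ?_, ?_⟩
  · intro p hp
    rcases mem_union.1 hp with h | h
    · have h1 := hR₁ p h
      have h2 := hR₁X' p h
      exact ⟨h1.1, h1.2, by omega⟩
    · have h1 := hR₂ p h
      exact ⟨h1.1, by omega, by omega⟩
  · intro y
    have h1 : (((R₁ ∪ R₂).filter (fun p => p ≤ y)).card : ℝ) ≤
        ((R₁.filter (fun p => p ≤ y)).card : ℝ) + ((R₂.filter (fun p => p ≤ y)).card : ℝ) := by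
      rw [filter_union]
      exact_mod_cast card_union_le _ _
    have h2 := hR₁c y
    have h3 : ((R₂.filter (fun p => p ≤ y)).card : ℝ) ≤ Real.sqrt y * Real.log y := by
      by_cases hy : X' < y
      · have h4 : ((R₂.filter (fun p => p ≤ y)).card : ℝ) ≤ (R₂.card : ℝ) := by
          exact_mod_cast card_le_card (filter_subset _ _)
        have h6 : ((X' : ℕ) : ℝ) ≤ y := by exact_mod_cast hy.le
        rcases Nat.eq_zero_or_pos X' with h0 | h0
        · rw [h0] at hR₂c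
          simp only [Nat.cast_zero, Real.sqrt_zero, zero_mul] at hR₂c
          have h5 : 0 ≤ Real.sqrt y * Real.log y :=
            mul_nonneg (Real.sqrt_nonneg _) (Real.log_natCast_nonneg _)
          linarith
        · have h7 : (0 : ℝ) < X' := by exact_mod_cast h0
          have h5 : Real.sqrt X' * Real.log X' ≤ Real.sqrt y * Real.log y :=
            mul_le_mul (Real.sqrt_le_sqrt h6) (Real.log_le_log h7 h6) (Real.log_natCast_nonneg _)
              (Real.sqrt_nonneg _)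
          linarith
      · have h4 : R₂.filter (fun p => p ≤ y) = ∅ := by
          refine filter_eq_empty_iff.2 fun p hp => ?_
          have := (hR₂ p hp).2.1
          omega
        rw [h4, card_empty, Nat.cast_zero]
        exact mul_nonneg (Real.sqrt_nonneg _) (Real.log_natCast_nonneg _)
    linarith
  · intro x hx
    obtain ⟨hT1, hT2⟩ := hT x hx
    have hs0 : 0 ≤ Real.sqrt x := Real.sqrt_nonneg _
    have hsφ : 0 ≤ Real.sqrt x * φ x := mul_nonneg hs0 hT2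
    rcases le_or_gt X' x with h | h
    · obtain ⟨h1, h2, h3⟩ := hb' x h
      have h4 : (ε * b + δ₁) * (Real.sqrt x * φ x) ≤ δ * (Real.sqrt x * φ x) :=
        mul_le_mul_of_nonneg_right (by linarith) hsφ
      have h5 : (b + δ₁) * (Real.sqrt x * φ x) ≤ (b + δ) * (Real.sqrt x * φ x) :=
        mul_le_mul_of_nonneg_right (by linarith) hsφ
      exact ⟨by linarith, by linarith, by linarith⟩
    · have hag : ∀ p : ℕ, p.Prime → p ≤ x → flipS f (R₁ ∪ R₂) p = flipS f R₁ p := by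
        intro p _ hpx
        have h1 : p ∉ R₂ := by
          intro hp
          have := (hR₂ p hp).2.1
          omega
        unfold flipS
        simp [h1]
      rw [comp_congr u v _ _ x hag, comp_congr (-v) u _ _ x hag]
      obtain ⟨h1, h2, h3⟩ := hc x
      have h4 : 2 * μ * Real.sqrt x ≤ δ * (Real.sqrt x * φ x) := by
        have := mul_le_mul_of_nonneg_right hT1 hs0
        linarith
      have h5 : ε / 4 * μ * Real.sqrt x ≤ 2 * μ * Real.sqrt x := by
        have h6 : 0 ≤ μ * Real.sqrt x := mul_nonneg hμ0 hs0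
        nlinarith
      have h7 : 0 ≤ b * (Real.sqrt x * φ x) := mul_nonneg hb.le hsφ
      exact ⟨by linarith, by linarith, by linarith⟩
  · obtain ⟨x, hx1, hx2, hx3⟩ := hlo
    obtain ⟨hT1, hT2⟩ := hT x (by omega)
    refine ⟨x, by omega, by omega, ?_⟩
    have hsφ : 0 ≤ Real.sqrt x * φ x := mul_nonneg (Real.sqrt_nonneg _) hT2
    have h4 : (b - δ) * (Real.sqrt x * φ x) ≤ (b - δ₁) * (Real.sqrt x * φ x) :=
      mul_le_mul_of_nonneg_right (by linarith) hsφ
    linarith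

end Pool.Agent.Helper66.JC
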